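import Pool.Agent.Y938.QU.Stm

set_option autoImplicit false

/-! Project QU: the rational Urysohn space exists (helper348). -/

namespace Pool.Agent.Y938.QU

namespace Exist

/-- `d` is a metric on `{0, …, n - 1}`. -/
def Met (n : ℕ) (d : ℕ → ℕ → ℚ) : Prop :=
  (∀ i < n, d i i = 0) ∧ (∀ i < n, ∀ j < n, i ≠ j → 0 < d i j) ∧
  (∀ i < n, ∀ j < n, d i j = d j i) ∧
  ∀ i < n, ∀ j < n, ∀ k < n, d i k ≤ d i j + d j k

/-- `g` is a one point extension of `d`. -/
def Good (n : ℕ) (d : ℕ → ℕ → ℚ) (g : ℕ → ℚ) : Prop :=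
  (∀ m < n, 0 < g m) ∧ (∀ m < n, ∀ m' < n, g m ≤ g m' + d m m') ∧
  ∀ m < n, ∀ m' < n, d m m' ≤ g m + g m'

/-- A task is valid. -/
def Valid (n : ℕ) (d : ℕ → ℕ → ℚ) (A : Finset ℕ) (f : ℕ → ℚ) : Prop :=
  A.Nonempty ∧ (∀ a ∈ A, a < n) ∧ (∀ a ∈ A, 0 < f a) ∧
  ∀ a ∈ A, ∀ b ∈ A, f a - f b ≤ d a b ∧ d a b ≤ f a + f b

theorem Met.nonneg {n : ℕ} {d : ℕ → ℕ → ℚ} (h : Met n d) {i j : ℕ} (hi : i < n) (hj : j < n) :
    0 ≤ d i j := by
  by_cases e : i = j
  · rw [e, h.1 j hj]
  · exact (h.2.1 i hi j hj e).le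

theorem good_of_valid {n : ℕ} {d : ℕ → ℕ → ℚ} (h : Met n d) {A : Finset ℕ} {f : ℕ → ℚ}
    (hv : Valid n d A f) : ∃ g, Good n d g ∧ ∀ a ∈ A, g a = f a := by
  obtain ⟨hA, hn, hp, hf⟩ := hv
  have hle : ∀ m, ∀ a ∈ A, A.inf' hA (fun a => f a + d a m) ≤ f a + d a m := fun m a ha =>
    Finset.inf'_le _ ha
  have hat : ∀ m, ∃ a ∈ A, A.inf' hA (fun a => f a + d a m) = f a + d a m := fun m =>
    Finset.exists_mem_eq_inf' hA _
  refine ⟨fun m => A.inf' hA (fun a => f a + d a m), ⟨?_, ?_, ?_⟩, ?_⟩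
  · intro m hm
    obtain ⟨a, ha, e⟩ := hat m
    show 0 < A.inf' hA (fun a => f a + d a m)
    rw [e]
    have := h.nonneg (hn a ha) hm
    have := hp a ha
    linarith
  · intro m hm m' hm'
    show A.inf' hA (fun a => f a + d a m) ≤ A.inf' hA (fun a => f a + d a m') + d m m'
    obtain ⟨a, ha, e⟩ := hat m'
    rw [e]
    have h1 := hle m a ha
    have h2 := h.2.2.2 a (hn a ha) m' hm' m hm
    have h3 := h.2.2.1 m hm m' hm'
    linarith
  · intro m hm m' hm'
    show d m m' ≤ A.inf' hA (fun a => f a + d a m) + A.inf' hA (fun a => f a + d a m')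
    obtain ⟨a, ha, e⟩ := hat m
    obtain ⟨b, hb, e'⟩ := hat m'
    rw [e, e']
    have h1 := h.2.2.2 m hm a (hn a ha) m' hm'
    have h2 := h.2.2.2 a (hn a ha) b (hn b hb) m' hm'
    have h3 := h.2.2.1 m hm a (hn a ha)
    have h4 := (hf a ha b hb).2
    linarith
  · intro a ha
    show A.inf' hA (fun b => f b + d b a) = f a
    apply le_antisymm
    · have h1 := hle a a ha
      rw [h.1 a (hn a ha)] at h1
      linarith
    · obtain ⟨b, hb, e⟩ := hat a
      rw [e]
      have h1 := (hf a ha b hb).1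
      have h2 := h.2.2.1 a (hn a ha) b (hn b hb)
      linarith

theorem good_exists {n : ℕ} {d : ℕ → ℕ → ℚ} (h : Met n d) : ∃ g, Good n d g := by
  rcases Nat.eq_zero_or_pos n with h0 | h0
  · subst h0
    exact ⟨fun _ => 1, fun m hm => absurd hm (Nat.not_lt_zero m),
      fun m hm => absurd hm (Nat.not_lt_zero m), fun m hm => absurd hm (Nat.not_lt_zero m)⟩
  · refine ⟨fun m => 1 + d 0 m, ?_, ?_, ?_⟩
    · intro m hm
      have := h.nonneg h0 hm
      show 0 < 1 + d 0 m
      linarith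
    · intro m hm m' hm'
      have h1 := h.2.2.2 0 h0 m' hm' m hm
      have h2 := h.2.2.1 m hm m' hm'
      show 1 + d 0 m ≤ 1 + d 0 m' + d m m'
      linarith
    · intro m hm m' hm'
      have h1 := h.2.2.2 m hm 0 h0 m' hm'
      have h2 := h.2.2.1 m hm 0 h0
      show d m m' ≤ 1 + d 0 m + (1 + d 0 m')
      linarith

/-- Adding the point `n`. -/
def add (n : ℕ) (d : ℕ → ℕ → ℚ) (g : ℕ → ℚ) (i j : ℕ) : ℚ :=
  if i = n then (if j = n then 0 else g j) else if j = n then g i else d i j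

theorem add_met {n : ℕ} {d : ℕ → ℕ → ℚ} (h : Met n d) {g : ℕ → ℚ} (hg : Good n d g) :
    Met (n + 1) (add n d g) := by
  have hlt : ∀ i, i < n + 1 → i ≠ n → i < n := fun i h1 h2 => by omega
  refine ⟨?_, ?_, ?_, ?_⟩
  · intro i hi
    unfold add
    split_ifs with h1
    · rfl
    · exact h.1 i (hlt i hi h1)
  · intro i hi j hj hij
    unfold add
    split_ifs with h1 h2 h2
    · exact absurd (h1.trans h2.symm) hij
    · exact hg.1 j (hlt j hj h2)
    · exact hg.1 i (hlt i hi h1)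
    · exact h.2.1 i (hlt i hi h1) j (hlt j hj h2) hij
  · intro i hi j hj
    unfold add
    split_ifs with h1 h2 h2
    · rfl
    · rfl
    · rfl
    · exact h.2.2.1 i (hlt i hi h1) j (hlt j hj h2)
  · intro i hi j hj k hk
    unfold add
    by_cases h1 : i = n
    · by_cases h2 : j = n
      · by_cases h3 : k = n
        · simp only [h1, h2, h3, if_true]
          norm_num
        · simp only [h1, h2, h3, if_true, if_false]
          linarith
      · by_cases h3 : k = n
        · rw [if_pos h1, if_pos h3, if_pos h1, if_neg h2, if_neg h2, if_pos h3]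
          have := hg.1 j (hlt j hj h2)
          linarith
        · rw [if_pos h1, if_neg h3, if_pos h1, if_neg h2, if_neg h2, if_neg h3]
          have e1 := hg.2.1 k (hlt k hk h3) j (hlt j hj h2)
          have e2 := h.2.2.1 j (hlt j hj h2) k (hlt k hk h3)
          linarith
    · by_cases h2 : j = n
      · by_cases h3 : k = n
        · rw [if_neg h1, if_pos h3, if_neg h1, if_pos h2, if_pos h2, if_pos h3]
          linarith
        · rw [if_neg h1, if_neg h3, if_neg h1, if_pos h2, if_pos h2, if_neg h3]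
          exact hg.2.2 i (hlt i hi h1) k (hlt k hk h3)
      · by_cases h3 : k = n
        · rw [if_neg h1, if_pos h3, if_neg h1, if_neg h2, if_neg h2, if_pos h3]
          have e1 := hg.2.1 i (hlt i hi h1) j (hlt j hj h2)
          linarith
        · rw [if_neg h1, if_neg h3, if_neg h1, if_neg h2, if_neg h2, if_neg h3]
          exact h.2.2.2 i (hlt i hi h1) j (hlt j hj h2) k (hlt k hk h3)

theorem step (n : ℕ) (d : ℕ → ℕ → ℚ) (h : Met n d) (A : Finset ℕ) (f : ℕ → ℚ) :
    ∃ d' : ℕ → ℕ → ℚ, Met (n + 1) d' ∧ (∀ i < n, ∀ j < n, d' i j = d i j) ∧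
      (Valid n d A f → ∀ a ∈ A, d' n a = f a) := by
  have hold : ∀ g : ℕ → ℚ, ∀ i < n, ∀ j < n, add n d g i j = d i j := by
    intro g i hi j hj
    unfold add
    rw [if_neg hi.ne, if_neg hj.ne]
  by_cases hv : Valid n d A f
  · obtain ⟨g, hg, hgf⟩ := good_of_valid h hv
    refine ⟨add n d g, add_met h hg, hold g, fun _ a ha => ?_⟩
    unfold add
    rw [if_pos rfl, if_neg (hv.2.1 a ha).ne, hgf a ha]
  · obtain ⟨g, hg⟩ := good_exists h
    exact ⟨add n d g, add_met h hg, hold g, fun h' => absurd h' hv⟩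

theorem seq_exists (A : ℕ → Finset ℕ) (f : ℕ → ℕ → ℚ) :
    ∃ S : ℕ → ℕ → ℕ → ℚ, (∀ n, Met n (S n)) ∧
      (∀ n, ∀ i < n, ∀ j < n, S (n + 1) i j = S n i j) ∧
      ∀ n, Valid n (S n) (A n) (f n) → ∀ a ∈ A n, S (n + 1) n a = f n a := by
  have h0 : Met 0 (fun _ _ => 0) :=
    ⟨fun i hi => absurd hi (Nat.not_lt_zero i), fun i hi => absurd hi (Nat.not_lt_zero i),
      fun i hi => absurd hi (Nat.not_lt_zero i), fun i hi => absurd hi (Nat.not_lt_zero i)⟩
  let S : ∀ n : ℕ, {d : ℕ → ℕ → ℚ // Met n d} := fun n => Nat.rec ⟨fun _ _ => 0, h0⟩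
    (fun n d => ⟨(step n d.1 d.2 (A n) (f n)).choose,
      (step n d.1 d.2 (A n) (f n)).choose_spec.1⟩) n
  refine ⟨fun n => (S n).1, fun n => (S n).2, fun n => ?_, fun n => ?_⟩
  · exact (step n (S n).1 (S n).2 (A n) (f n)).choose_spec.2.1
  · exact (step n (S n).1 (S n).2 (A n) (f n)).choose_spec.2.2

theorem metric_exists : ∃ D : ℕ → ℕ → ℚ, (∀ i, D i i = 0) ∧ (∀ i j, i ≠ j → 0 < D i j) ∧
    (∀ i j, D i j = D j i) ∧ (∀ i j k, D i k ≤ D i j + D j k) ∧
    ∀ (A : Finset ℕ) (f : ℕ → ℚ), (∀ a ∈ A, 0 < f a) →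
      (∀ a ∈ A, ∀ b ∈ A, f a - f b ≤ D a b ∧ D a b ≤ f a + f b) →
      ∃ x, ∀ a ∈ A, D x a = f a := by
  obtain ⟨e, he⟩ := exists_surjective_nat (Finset ℕ × (ℕ →₀ ℚ))
  obtain ⟨S, h1, h2, h3⟩ := seq_exists (fun n => (e (Nat.unpair n).1).1)
    (fun n => (e (Nat.unpair n).1).2)
  have hst : ∀ i j n, i < n → j < n → ∀ k, S (n + k) i j = S n i j := by
    intro i j n hi hj k
    induction k with
    | zero => rfl
    | succ k ih =>
      rw [← Nat.add_assoc, h2 (n + k) i (by omega) j (by omega), ih]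
  set D : ℕ → ℕ → ℚ := fun i j => S (max i j + 1) i j with hD
  have hDS : ∀ i j n, i < n → j < n → D i j = S n i j := by
    intro i j n hi hj
    have h4 : n = (max i j + 1) + (n - (max i j + 1)) := by
      have : max i j < n := max_lt hi hj
      omega
    have h5 := hst i j (max i j + 1) (by omega) (by omega) (n - (max i j + 1))
    rw [← h4] at h5
    exact h5.symm
  refine ⟨D, ?_, ?_, ?_, ?_, ?_⟩
  · intro i
    rw [hDS i i (i + 1) (by omega) (by omega)]
    exact (h1 (i + 1)).1 i (by omega)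
  · intro i j hij
    rw [hDS i j (i + j + 1) (by omega) (by omega)]
    exact (h1 (i + j + 1)).2.1 i (by omega) j (by omega) hij
  · intro i j
    rw [hDS i j (i + j + 1) (by omega) (by omega), hDS j i (i + j + 1) (by omega) (by omega)]
    exact (h1 (i + j + 1)).2.2.1 i (by omega) j (by omega)
  · intro i j k
    rw [hDS i j (i + j + k + 1) (by omega) (by omega), hDS j k (i + j + k + 1) (by omega) (by omega),
      hDS i k (i + j + k + 1) (by omega) (by omega)]
    exact (h1 (i + j + k + 1)).2.2.2 i (by omega) j (by omega) k (by omega)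
  · intro A f hf hAf
    rcases A.eq_empty_or_nonempty with h0 | h0
    · exact ⟨0, fun a ha => by rw [h0] at ha; exact absurd ha (Finset.notMem_empty a)⟩
    · obtain ⟨k, hk⟩ := he (A, Finsupp.indicator A (fun a _ => f a))
      obtain ⟨N, hN⟩ : ∃ N, ∀ a ∈ A, a < N := ⟨A.sup id + 1, fun a ha =>
        Nat.lt_succ_of_le (Finset.le_sup (f := id) ha)⟩
      have hkN : N ≤ Nat.pair k N := Nat.right_le_pair k N
      have hu : (Nat.unpair (Nat.pair k N)).1 = k := by rw [Nat.unpair_pair]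
      have hfa : ∀ a ∈ A, (Finsupp.indicator A (fun a _ => f a)) a = f a := fun a ha =>
        Finsupp.indicator_of_mem ha _
      have h4 := h3 (Nat.pair k N)
      rw [hu, hk] at h4
      have h5 := h4 ⟨h0, fun a ha => lt_of_lt_of_le (hN a ha) hkN, fun a ha => by
          rw [hfa a ha]; exact hf a ha, fun a ha b hb => by
          rw [hfa a ha, hfa b hb, ← hDS a b _ (lt_of_lt_of_le (hN a ha) hkN)
            (lt_of_lt_of_le (hN b hb) hkN)]
          exact hAf a ha b hb⟩
      refine ⟨Nat.pair k N, fun a ha => ?_⟩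
      rw [hDS _ a (Nat.pair k N + 1) (by omega) (by
        have := lt_of_lt_of_le (hN a ha) hkN
        omega), h5 a ha, hfa a ha]

end Exist

open Exist in
theorem exist_spec : S_exist := by
  obtain ⟨D, h1, h2, h3, h4, h5⟩ := metric_exists
  refine ⟨ℕ, { dist := fun x y => (D x y : ℝ)
               dist_self := fun x => by
                show ((D x x : ℚ) : ℝ) = 0
                rw [h1]; norm_num
               dist_comm := fun x y => by
                show ((D x y : ℚ) : ℝ) = (D y x : ℚ)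
                rw [h3]
               dist_triangle := fun x y z => by
                show ((D x z : ℚ) : ℝ) ≤ (D x y : ℚ) + (D y z : ℚ)
                exact_mod_cast h4 x y z
               eq_of_dist_eq_zero := fun {x y} h => by
                by_contra hxy
                have h' : ((D x y : ℚ) : ℝ) = 0 := h
                have h6 : D x y = 0 := by exact_mod_cast h'
                exact (h2 x y hxy).ne' h6 }, inferInstance, ?_, ?_⟩
  · intro x y
    exact ⟨D x y, rfl⟩
  · intro A f hf hA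
    obtain ⟨x, hx⟩ := h5 A f hf (fun a ha b hb => by
      obtain ⟨e1, e2⟩ := hA a ha b hb
      have e1' : |(f a : ℝ) - (f b : ℝ)| ≤ ((D a b : ℚ) : ℝ) := e1
      have e2' : ((D a b : ℚ) : ℝ) ≤ (f a : ℝ) + (f b : ℝ) := e2
      constructor
      · have := (abs_le.1 e1').2
        exact_mod_cast this
      · exact_mod_cast e2')
    refine ⟨x, fun a ha => ?_⟩
    show ((D x a : ℚ) : ℝ) = (f a : ℝ)
    rw [hx a ha]

end Pool.Agent.Y938.QU
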