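import Pool.Agent.Y938.QU.Stm

set_option autoImplicit false

/-! Project QU: one point extensions, universality and free amalgamation in the rational Urysohn space. -/

namespace Pool.Agent.Y938.QU

noncomputable section

theorem one_spec : S_one := by
  intro X _ hU A f hf h
  by_cases h0 : ∃ a ∈ A, f a = 0
  · obtain ⟨a, ha, h0⟩ := h0
    refine ⟨a, fun b hb => ?_⟩
    have h1 := h a ha b hb
    rw [h0] at h1
    have h2 : (0 : ℝ) ≤ f b := by exact_mod_cast hf b hb
    obtain ⟨h3, h4⟩ := h1
    rw [abs_le] at h3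
    push_cast at h3 h4
    linarith [h3.1]
  · refine hU.2 A f (fun a ha => lt_of_le_of_ne (hf a ha) ?_) h
    intro he
    exact h0 ⟨a, ha, he.symm⟩

namespace Ext

variable {X : Type} [MetricSpace X]

/-- The points chosen one after the other. -/
def pts [Nonempty X] (Bs : Finset X) (D : ℕ → ℕ → ℚ) (g : ℕ → X → ℚ) : ℕ → X
  | n => Classical.epsilon (fun y => (∀ i : Fin n, dist y (pts Bs D g i) = (D n i : ℝ)) ∧
      ∀ b ∈ Bs, dist y b = (g n b : ℝ))
termination_by n => n
decreasing_by exact i.2

theorem pts_spec [Nonempty X] (hU : Ury X) (Bs : Finset X) (D : ℕ → ℕ → ℚ) (g : ℕ → X → ℚ)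
    (hD0 : ∀ a, D a a = 0) (hDs : ∀ a b, D a b = D b a) (hDt : ∀ a b c, D a c ≤ D a b + D b c)
    (hgn : ∀ m, ∀ b ∈ Bs, 0 ≤ g m b)
    (hg1 : ∀ m, ∀ b ∈ Bs, ∀ b' ∈ Bs, |(g m b : ℝ) - (g m b' : ℝ)| ≤ dist b b' ∧
      dist b b' ≤ (g m b : ℝ) + (g m b' : ℝ))
    (hg2 : ∀ m m', ∀ b ∈ Bs, g m b ≤ D m m' + g m' b)
    (hg3 : ∀ m m', ∀ b ∈ Bs, D m m' ≤ g m b + g m' b) (n : ℕ) :
    (∀ i : Fin n, dist (pts Bs D g n) (pts Bs D g i) = (D n i : ℝ)) ∧
      ∀ b ∈ Bs, dist (pts Bs D g n) b = (g n b : ℝ) := by
  classical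
  induction n using Nat.strong_induction_on with
  | _ n ih =>
    have hD : ∀ a b, 0 ≤ D a b := fun a b => by
      have h1 := hDt a b a
      rw [hD0, hDs b a] at h1
      linarith
    have hdist : ∀ i j : ℕ, i < n → j < n → dist (pts Bs D g i) (pts Bs D g j) = (D i j : ℝ) := by
      intro i j hi hj
      rcases lt_trichotomy i j with h | h | h
      · rw [dist_comm, (ih j hj).1 ⟨i, h⟩, hDs]
      · subst h; rw [dist_self, hD0]; simp
      · exact (ih i hi).1 ⟨j, h⟩
    have key : ∃ y : X, (∀ i : Fin n, dist y (pts Bs D g i) = (D n i : ℝ)) ∧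
        ∀ b ∈ Bs, dist y b = (g n b : ℝ) := by
      set A : Finset X := Bs ∪ (Finset.range n).image (pts Bs D g) with hA
      set f : X → ℚ := fun x => if x ∈ Bs then g n x else
        if h : ∃ i, i < n ∧ pts Bs D g i = x then D n h.choose else 0 with hf
      have f1 : ∀ b ∈ Bs, f b = g n b := fun b hb => by simp only [hf, if_pos hb]
      have f2 : ∀ i, i < n → f (pts Bs D g i) = D n i := by
        intro i hi
        by_cases hb : pts Bs D g i ∈ Bs
        · rw [f1 _ hb]
          have h1 := (ih i hi).2 _ hb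
          rw [dist_self] at h1
          have h2 : g i (pts Bs D g i) = 0 := by exact_mod_cast h1.symm
          apply le_antisymm
          · have := hg2 n i _ hb; rw [h2] at this; linarith
          · have := hg3 n i _ hb; rw [h2] at this; linarith
        · have hex : ∃ j, j < n ∧ pts Bs D g j = pts Bs D g i := ⟨i, hi, rfl⟩
          have e : f (pts Bs D g i) = D n hex.choose := by
            simp only [hf, if_neg hb]
            rw [dif_pos hex]
          rw [e]
          obtain ⟨h1, h2⟩ := hex.choose_spec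
          have h3 := hdist _ _ h1 hi
          rw [h2, dist_self] at h3
          have h4 : D hex.choose i = 0 := by exact_mod_cast h3.symm
          apply le_antisymm
          · have := hDt n i hex.choose; rw [hDs i, h4] at this; linarith
          · have := hDt n hex.choose i; rw [h4] at this; linarith
      have hAm : ∀ a ∈ A, a ∈ Bs ∨ ∃ i, i < n ∧ pts Bs D g i = a := by
        intro a ha
        rw [hA, Finset.mem_union, Finset.mem_image] at ha
        rcases ha with ha | ⟨i, hi, rfl⟩
        · exact Or.inl ha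
        · exact Or.inr ⟨i, Finset.mem_range.1 hi, rfl⟩
      obtain ⟨y, hy⟩ := one_spec X hU A f (by
        intro a ha
        rcases hAm a ha with h | ⟨i, hi, rfl⟩
        · rw [f1 a h]; exact hgn n a h
        · rw [f2 i hi]; exact hD _ _) (by
        intro a ha b hb
        have c1 : ∀ i, i < n → ∀ b ∈ Bs, |(D n i : ℝ) - (g n b : ℝ)| ≤ (g i b : ℝ) ∧
            (g i b : ℝ) ≤ (D n i : ℝ) + (g n b : ℝ) := by
          intro i hi b hb
          have e1 : (g n b : ℝ) ≤ D n i + g i b := by exact_mod_cast hg2 n i b hb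
          have e2 : (D n i : ℝ) ≤ g n b + g i b := by exact_mod_cast hg3 n i b hb
          have e3 : (g i b : ℝ) ≤ D n i + g n b := by
            have := hg2 i n b hb
            rw [hDs i n] at this
            exact_mod_cast this
          exact ⟨abs_le.2 ⟨by linarith, by linarith⟩, e3⟩
        rcases hAm a ha with h | ⟨i, hi, rfl⟩ <;> rcases hAm b hb with h' | ⟨j, hj, rfl⟩
        · rw [f1 a h, f1 b h']; exact hg1 n a h b h'
        · rw [f1 a h, f2 j hj, dist_comm, (ih j hj).2 a h]
          have := c1 j hj a h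
          rw [abs_sub_comm, add_comm]
          exact this
        · rw [f2 i hi, f1 b h', (ih i hi).2 b h']
          exact c1 i hi b h'
        · rw [f2 i hi, f2 j hj, hdist i j hi hj]
          have e1 : (D n i : ℝ) ≤ D n j + D i j := by
            have := hDt n j i
            rw [hDs j i] at this
            exact_mod_cast this
          have e2 : (D n j : ℝ) ≤ D n i + D i j := by exact_mod_cast hDt n i j
          have e3 : (D i j : ℝ) ≤ D n i + D n j := by
            have := hDt i n j
            rw [hDs i n] at this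
            exact_mod_cast this
          exact ⟨abs_le.2 ⟨by linarith, by linarith⟩, e3⟩)
      refine ⟨y, fun i => ?_, fun b hb => ?_⟩
      · rw [hy _ (by rw [hA, Finset.mem_union, Finset.mem_image]
                     exact Or.inr ⟨i, Finset.mem_range.2 i.2, rfl⟩), f2 i i.2]
      · rw [hy _ (by rw [hA, Finset.mem_union]; exact Or.inl hb), f1 b hb]
    have h := Classical.epsilon_spec key
    rw [← pts] at h
    exact h

theorem core (hU : Ury X) (Bs : Finset X) (M : Type) [Countable M] (D : M → M → ℚ) (g : M → X → ℚ)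
    (hD0 : ∀ a, D a a = 0) (hDs : ∀ a b, D a b = D b a) (hDt : ∀ a b c, D a c ≤ D a b + D b c)
    (hgn : ∀ m, ∀ b ∈ Bs, 0 ≤ g m b)
    (hg1 : ∀ m, ∀ b ∈ Bs, ∀ b' ∈ Bs, |(g m b : ℝ) - (g m b' : ℝ)| ≤ dist b b' ∧
      dist b b' ≤ (g m b : ℝ) + (g m b' : ℝ))
    (hg2 : ∀ m m', ∀ b ∈ Bs, g m b ≤ D m m' + g m' b)
    (hg3 : ∀ m m', ∀ b ∈ Bs, D m m' ≤ g m b + g m' b) :
    ∃ y : M → X, (∀ a b, dist (y a) (y b) = (D a b : ℝ)) ∧ ∀ a, ∀ b ∈ Bs, dist (y a) b = (g a b : ℝ) := by
  rcases isEmpty_or_nonempty M with hM | hM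
  · exact ⟨fun m => (hM.false m).elim, fun a => (hM.false a).elim, fun a => (hM.false a).elim⟩
  · have : Nonempty X := by
      obtain ⟨x, -⟩ := hU.2 ∅ (fun _ => 0) (by simp) (by simp)
      exact ⟨x⟩
    obtain ⟨s, hs⟩ := exists_surjective_nat M
    have h := pts_spec hU Bs (fun i j => D (s i) (s j)) (fun i => g (s i)) (fun a => hD0 _)
      (fun a b => hDs _ _) (fun a b c => hDt _ _ _) (fun m => hgn _) (fun m => hg1 _)
      (fun m m' => hg2 _ _) (fun m m' => hg3 _ _)
    set p := pts Bs (fun i j => D (s i) (s j)) (fun i => g (s i)) with hp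
    have hdist : ∀ i j : ℕ, dist (p i) (p j) = (D (s i) (s j) : ℝ) := by
      intro i j
      rcases lt_trichotomy i j with h' | h' | h'
      · rw [dist_comm, (h j).1 ⟨i, h'⟩, hDs]
      · subst h'; rw [dist_self, hD0]; simp
      · exact (h i).1 ⟨j, h'⟩
    choose t ht using hs
    refine ⟨fun m => p (t m), fun a b => ?_, fun a b hb => ?_⟩
    · rw [hdist, ht, ht]
    · rw [(h (t a)).2 b hb, ht]

end Ext

theorem univ_spec (_h : S_one) : S_univ := by
  intro X _ hU M _ D h0 hs ht
  obtain ⟨y, hy, -⟩ := Ext.core hU ∅ M D (fun _ _ => 0) h0 hs ht (by simp) (by simp) (by simp) (by simp)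
  exact ⟨y, hy⟩

theorem am_spec (_h1 : S_one) (h2 : S_uhom) : S_am := by
  classical
  intro X _ hX hU x0 A B
  choose q hq using hU.1
  have hq' : ∀ x y : X, (q x y : ℝ) = dist x y := fun x y => (hq x y).symm
  set A' : Finset X := insert x0 A with hA'
  obtain ⟨y, hy1, hy2⟩ := Ext.core hU (insert x0 B) A' (fun a b => q a b)
    (fun a b => q a x0 + q x0 b)
    (fun a => by
      have := hq' a a
      rw [dist_self] at this
      exact_mod_cast this)
    (fun a b => by
      have : ((q a b : ℚ) : ℝ) = ((q b a : ℚ) : ℝ) := by rw [hq', hq', dist_comm]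
      exact_mod_cast this)
    (fun a b c => by
      have : ((q a c : ℚ) : ℝ) ≤ ((q a b + q b c : ℚ) : ℝ) := by
        push_cast
        rw [hq', hq', hq']
        exact dist_triangle _ _ _
      exact_mod_cast this)
    (fun a b _ => by
      have : ((0 : ℚ) : ℝ) ≤ ((q a x0 + q x0 b : ℚ) : ℝ) := by
        push_cast
        rw [hq', hq']
        positivity
      exact_mod_cast this)
    (fun a b _ b' _ => by
      push_cast
      rw [hq', hq', hq']
      have t1 := dist_triangle x0 b b'
      have t2 := dist_triangle x0 b' b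
      have t3 := dist_triangle b x0 b'
      have t4 : (0 : ℝ) ≤ dist (a : X) x0 := dist_nonneg
      rw [dist_comm b' b] at t2
      rw [dist_comm b x0] at t3
      exact ⟨abs_le.2 ⟨by linarith, by linarith⟩, by linarith⟩)
    (fun a a' b _ => by
      have : ((q a x0 + q x0 b : ℚ) : ℝ) ≤ ((q a a' + (q a' x0 + q x0 b) : ℚ) : ℝ) := by
        push_cast
        rw [hq', hq', hq', hq']
        have := dist_triangle (a : X) a' x0
        linarith
      exact_mod_cast this)
    (fun a a' b _ => by
      have : ((q a a' : ℚ) : ℝ) ≤ ((q a x0 + q x0 b + (q a' x0 + q x0 b) : ℚ) : ℝ) := by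
        push_cast
        rw [hq', hq', hq', hq']
        have t1 := dist_triangle (a : X) x0 a'
        have t2 : (0 : ℝ) ≤ dist x0 b := dist_nonneg
        rw [dist_comm x0 (a' : X)] at t1
        linarith
      exact_mod_cast this)
  obtain ⟨k, hk⟩ := h2 X hX hU A' (fun a => (a : X)) y (fun i j => by rw [hy1, hq'])
  refine ⟨k, ?_, ?_⟩
  · have h3 := hk ⟨x0, Finset.mem_insert_self _ _⟩
    have h4 := hy2 ⟨x0, Finset.mem_insert_self _ _⟩ x0 (Finset.mem_insert_self _ _)
    push_cast at h4
    rw [hq', dist_self, add_zero, dist_eq_zero] at h4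
    simp only at h3
    rw [h3, h4]
  · intro a ha b hb
    have h3 := hk ⟨a, Finset.mem_insert_of_mem ha⟩
    have h4 := hy2 ⟨a, Finset.mem_insert_of_mem ha⟩ b (Finset.mem_insert_of_mem hb)
    push_cast at h4
    rw [hq', hq'] at h4
    simp only at h3
    rw [h3, h4]

end

end Pool.Agent.Y938.QU
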