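import Pool.Agent.Y938.QU.Stm

set_option autoImplicit false

/-! Project QU (frozen S01262): the orbit of a vector fixed by a point stabiliser is bounded. -/

namespace Pool.Agent.Y938.QU

open Filter Topology Pool.Agent.Y938.AQ

noncomputable section

namespace Gbdd

/-- number of entries larger than `t` -/
def cnt (p : List ℕ) (t : ℕ) : ℕ := p.countP (fun a => decide (t < a))

/-- the distance of two lists -/
def dd (p q : List ℕ) : ℕ := ⨆ t : ℕ, ((cnt p t : ℤ) - (cnt q t : ℤ)).natAbs

lemma cnt_le (p : List ℕ) (t : ℕ) : cnt p t ≤ p.length := List.countP_le_length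

lemma bdd (p q : List ℕ) :
    BddAbove (Set.range fun t : ℕ => ((cnt p t : ℤ) - (cnt q t : ℤ)).natAbs) := by
  refine ⟨p.length + q.length, ?_⟩
  rintro _ ⟨t, rfl⟩
  have h1 := cnt_le p t
  have h2 := cnt_le q t
  simp only
  omega

lemma le_dd (p q : List ℕ) (t : ℕ) : ((cnt p t : ℤ) - (cnt q t : ℤ)).natAbs ≤ dd p q :=
  le_ciSup (bdd p q) t

lemma dd_le {p q : List ℕ} {n : ℕ} (h : ∀ t, ((cnt p t : ℤ) - (cnt q t : ℤ)).natAbs ≤ n) :
    dd p q ≤ n := ciSup_le h

lemma dd_self (p : List ℕ) : dd p p = 0 := by
  have h : dd p p ≤ 0 := dd_le (fun t => by simp)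
  omega

lemma dd_comm (p q : List ℕ) : dd p q = dd q p := by
  unfold dd
  congr 1
  funext t
  omega

lemma dd_tri (p q r : List ℕ) : dd p r ≤ dd p q + dd q r := by
  refine dd_le (fun t => ?_)
  have h1 := le_dd p q t
  have h2 := le_dd q r t
  omega

lemma cnt_cons (a : ℕ) (p : List ℕ) (t : ℕ) :
    cnt (a :: p) t = cnt p t + (if t < a then 1 else 0) := by
  unfold cnt
  rw [List.countP_cons]
  simp

lemma inter1 : ∀ (p q : List ℕ) (t : ℕ), Inter p q → cnt p t ≤ cnt q t
  | [], [], _, _ => le_rfl
  | a :: p, b :: q, t, h => by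
    obtain ⟨h1, _, h3⟩ := h
    have ih := inter1 p q t h3
    rw [cnt_cons, cnt_cons]
    split_ifs <;> omega
  | [], _ :: _, _, h => h.elim
  | _ :: _, [], _, h => h.elim

lemma inter3 : ∀ (p q : List ℕ) (t : ℕ), Inter p q → (∀ c ∈ p.head?, t < c) → cnt q t ≤ cnt p t
  | [], [], _, _, _ => le_rfl
  | a :: p, b :: q, t, h, ht => by
    obtain ⟨h1, h2, h3⟩ := h
    have hta : t < a := ht a (by simp)
    have ih := inter3 p q t h3 (fun c hc => by
      have := h2 c hc
      omega)
    rw [cnt_cons, cnt_cons, if_pos hta, if_pos (by omega)]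
    omega
  | [], _ :: _, _, h, _ => h.elim
  | _ :: _, [], _, h, _ => h.elim

lemma inter2 : ∀ (p q : List ℕ) (t : ℕ), Inter p q → cnt q t ≤ cnt p t + 1
  | [], [], _, _ => Nat.le_succ _
  | a :: p, b :: q, t, h => by
    obtain ⟨h1, h2, h3⟩ := h
    have ih := inter2 p q t h3
    rw [cnt_cons, cnt_cons]
    by_cases htb : t < b
    · have h4 := inter3 p q t h3 (fun c hc => by
        have := h2 c hc
        omega)
      rw [if_pos htb]
      split_ifs <;> omega
    · rw [if_neg htb]
      split_ifs <;> omega
  | [], _ :: _, _, h => h.elim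
  | _ :: _, [], _, h => h.elim

lemma dd_inter {p q : List ℕ} (h : Inter p q) : dd p q ≤ 1 := by
  refine dd_le (fun t => ?_)
  have h1 := inter1 p q t h
  have h2 := inter2 p q t h
  omega

lemma dd_nil (p : List ℕ) : dd p [] ≤ p.length := by
  refine dd_le (fun t => ?_)
  have h1 := cnt_le p t
  have h2 : cnt [] t = 0 := rfl
  omega

lemma dd_far {k : ℕ} {p q : List ℕ} (hp : p.length = k) (hq : q.length = k)
    (h : (p ++ q).Pairwise (· < ·)) : dd p q = k := by
  apply le_antisymm
  · refine dd_le (fun t => ?_)
    have h1 := cnt_le p t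
    have h2 := cnt_le q t
    omega
  · rcases Nat.eq_zero_or_pos k with hk | hk
    · omega
    · have hne : p.toFinset.Nonempty := by
        rw [List.toFinset_nonempty_iff]
        rintro rfl
        simp at hp
        omega
      set t := p.toFinset.max' hne with ht
      have ht1 : t ∈ p := List.mem_toFinset.1 (Finset.max'_mem _ hne)
      have ht2 : ∀ a ∈ p, a ≤ t := fun a ha => Finset.le_max' _ a (List.mem_toFinset.2 ha)
      have h3 := (List.pairwise_append.1 h).2.2
      have hc1 : cnt p t = 0 := by
        unfold cnt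
        rw [List.countP_eq_zero]
        intro a ha
        have := ht2 a ha
        simp
        omega
      have hc2 : cnt q t = q.length := by
        unfold cnt
        rw [List.countP_eq_length]
        intro b hb
        have := h3 t ht1 b hb
        simpa using this
      have h4 := le_dd p q t
      rw [hc1, hc2, hq] at h4
      omega

end Gbdd

open Gbdd in
theorem gbdd_spec (h1 : S_one) (h2 : S_uhom) (h3 : S_univ) (h4 : S_kalton) : S_gbdd := by
  classical
  intro X _ hcount hU E _ _ _ hR α x0 w hw
  -- the map `b`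
  have htr : ∀ x : X, ∃ g : X ≃ᵢ X, g x0 = x := by
    intro x
    obtain ⟨g, hg⟩ := h2 X hcount hU Unit (fun _ => x0) (fun _ => x) (fun _ _ => by simp)
    exact ⟨g, hg ()⟩
  choose γ hγ using htr
  set b : X → E := fun x => α (γ x) w with hb
  have hbg : ∀ (x : X) (g : X ≃ᵢ X), g x0 = x → α g w = b x := by
    intro x g hg
    have h5 : ((γ x)⁻¹ * g) x0 = x0 := by
      have h8 : (γ x)⁻¹ ((γ x) x0) = x0 := by
        rw [← IsometryEquiv.mul_apply, inv_mul_cancel]
        rfl
      rw [hγ x] at h8
      rw [IsometryEquiv.mul_apply, hg]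
      exact h8
    have h6 := hw _ h5
    have h7 : α g = α (γ x) * α ((γ x)⁻¹ * g) := by
      rw [← map_mul, mul_inv_cancel_left]
    rw [h7, AffineIsometryEquiv.coe_mul, Function.comp_apply, h6]
  have hbα : ∀ (x : X) (g : X ≃ᵢ X), b (g x) = α g (b x) := by
    intro x g
    have h5 : (g * γ x) x0 = g x := by
      rw [IsometryEquiv.mul_apply, hγ]
    rw [← hbg (g x) (g * γ x) h5, map_mul, AffineIsometryEquiv.coe_mul, Function.comp_apply]
  -- the distances depend only on the distance
  have hinv : ∀ x y x' y' : X, dist x y = dist x' y' → ‖b x - b y‖ = ‖b x' - b y'‖ := by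
    intro x y x' y' h
    obtain ⟨g, hg⟩ := h2 X hcount hU Bool (fun i => if i then x else y)
      (fun i => if i then x' else y') (by
        intro i j
        cases i <;> cases j <;> simp [h, dist_comm])
    have hx : g x = x' := by simpa using hg true
    have hy : g y = y' := by simpa using hg false
    rw [← hx, ← hy, hbα, hbα, ← dist_eq_norm, ← dist_eq_norm, AffineIsometryEquiv.dist_map]
  -- a pair at distance one
  obtain ⟨z1, hz1⟩ := h1 X hU {x0} (fun _ => 1) (fun _ _ => by norm_num) (by
    intro a ha b hb
    simp only [Finset.mem_singleton] at ha hb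
    subst ha
    subst hb
    simp)
  have hz1' : dist z1 x0 = 1 := by
    rw [hz1 x0 (Finset.mem_singleton_self _)]
    norm_num
  set C1 : ℝ := ‖b z1 - b x0‖ with hC1
  have hC1n : 0 ≤ C1 := norm_nonneg _
  -- chains
  have hchain : ∀ (n : ℕ) (x y : X), dist x y = n → ‖b x - b y‖ ≤ n * C1 := by
    intro n
    induction n with
    | zero =>
      intro x y h
      have hxy : x = y := dist_eq_zero.1 (by simpa using h)
      simp [hxy]
    | succ n ih =>
      intro x y h
      have hxy : y ≠ x := by
        rintro rfl
        rw [dist_self] at h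
        have : (0 : ℝ) < ((n + 1 : ℕ) : ℝ) := by positivity
        linarith
      obtain ⟨z, hz⟩ := h1 X hU {x, y} (fun t => if t = x then 1 else (n : ℚ))
        (by
          intro a _
          split_ifs <;> positivity)
        (by
          have hn : (0 : ℝ) ≤ (n : ℝ) := Nat.cast_nonneg n
          have h' : dist x y = (n : ℝ) + 1 := by rw [h]; push_cast; ring
          have h'' : dist y x = (n : ℝ) + 1 := by rw [dist_comm, h']
          intro a ha c hc
          simp only [Finset.mem_insert, Finset.mem_singleton] at ha hc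
          rcases ha with rfl | rfl <;> rcases hc with rfl | rfl
          · simp
          · rw [if_pos rfl, if_neg hxy, h']
            push_cast
            refine ⟨abs_le.2 ⟨by linarith, by linarith⟩, by linarith⟩
          · rw [if_pos rfl, if_neg hxy, h'']
            push_cast
            refine ⟨abs_le.2 ⟨by linarith, by linarith⟩, by linarith⟩
          · rw [if_neg hxy, sub_self, abs_zero, dist_self]
            push_cast
            exact ⟨le_rfl, by linarith⟩)
      have hzx : dist x z = dist z1 x0 := by
        have := hz x (by simp)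
        rw [if_pos rfl] at this
        rw [dist_comm, this, hz1']
        norm_num
      have hzy : dist z y = n := by
        have := hz y (by simp)
        rw [if_neg hxy] at this
        rw [this]
        norm_num
      have e1 := hinv _ _ _ _ hzx
      have e2 := ih z y hzy
      have e3 : ‖b x - b y‖ ≤ ‖b x - b z‖ + ‖b z - b y‖ := norm_sub_le_norm_sub_add_norm_sub _ _ _
      rw [e1] at e3
      push_cast
      nlinarith
  -- the lists
  obtain ⟨x, hx⟩ := h3 X hU (List ℕ) (fun p q => (dd p q : ℚ)) (fun a => by simp [dd_self])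
    (fun a b => by rw [dd_comm]) (fun a b c => by exact_mod_cast dd_tri a b c)
  have hx' : ∀ p q : List ℕ, dist (x p) (x q) = (dd p q : ℝ) := by
    intro p q
    rw [hx]
    norm_num
  -- pairs at distance `k`
  have hk : ∀ (k : ℕ) (y y' : X), dist y y' = k → ‖b y - b y'‖ ≤ 2 * C1 + 1 := by
    intro k y y' hyy
    set f : List ℕ → E := fun p => if p.length = k then b (x p) - b (x []) else 0 with hf
    obtain ⟨p, q, hp, hq, hpq, hle⟩ := h4 E hR k f (k * C1) C1
      (by
        intro p
        simp only [hf]
        split_ifs with hpk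
        · have e1 := hchain (dd p []) (x p) (x []) (hx' p [])
          have e2 : dd p [] ≤ k := by
            rw [← hpk]
            exact dd_nil p
          have e3 : (dd p [] : ℝ) ≤ k := by exact_mod_cast e2
          nlinarith
        · rw [norm_zero]
          positivity)
      hC1n
      (by
        intro p q hp hq hpq
        simp only [hf]
        rw [if_pos hp, if_pos hq, sub_sub_sub_cancel_right]
        have e1 := hchain (dd p q) (x p) (x q) (hx' p q)
        have e2 : (dd p q : ℝ) ≤ 1 := by exact_mod_cast dd_inter hpq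
        nlinarith)
      1 one_pos
    simp only [hf] at hle
    rw [if_pos hp, if_pos hq, sub_sub_sub_cancel_right] at hle
    have e4 : dist y y' = dist (x p) (x q) := by
      rw [hyy, hx', dd_far hp hq hpq]
    rw [hinv _ _ _ _ e4]
    exact hle
  refine ⟨4 * C1 + 2, fun g => ?_⟩
  have hbx0 : b x0 = w := by
    rw [← hbg x0 1 rfl, map_one]
    rfl
  have hbgx : b (g x0) = α g w := (hbg (g x0) g rfl).symm
  rw [← hbgx, ← hbx0]
  obtain ⟨k, hk'⟩ := exists_nat_ge (dist (g x0) x0)
  obtain ⟨z, hz⟩ := h1 X hU {g x0, x0} (fun _ => (k : ℚ)) (fun _ _ => by positivity)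
    (by
      have hkn : (0 : ℝ) ≤ (k : ℝ) := Nat.cast_nonneg k
      intro a ha c hc
      simp only [Finset.mem_insert, Finset.mem_singleton] at ha hc
      have hd : dist a c ≤ (k : ℝ) := by
        rcases ha with rfl | rfl <;> rcases hc with rfl | rfl
        · rw [dist_self]; exact hkn
        · exact hk'
        · rw [dist_comm]; exact hk'
        · rw [dist_self]; exact hkn
      rw [sub_self, abs_zero]
      push_cast
      exact ⟨dist_nonneg, by linarith⟩)
  have e1 := hk k z (g x0) (by rw [hz (g x0) (by simp)]; norm_num)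
  have e2 := hk k z x0 (by rw [hz x0 (by simp)]; norm_num)
  have e3 : ‖b (g x0) - b x0‖ ≤ ‖b (g x0) - b z‖ + ‖b z - b x0‖ :=
    norm_sub_le_norm_sub_add_norm_sub _ _ _
  rw [norm_sub_rev (b (g x0)) (b z)] at e3
  linarith

end

end Pool.Agent.Y938.QU
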