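import Pool.Agent.Y938.QU.Stm

set_option autoImplicit false

/-! Project QU (frozen S01262): the fixed point of the whole group (part QU8, helper550). -/

namespace Pool.Agent.Y938.QU

open Filter Topology Pool.Agent.Y938.AQ

noncomputable section

namespace Gfix

/-- A point at the same distance from all points of a finite set. -/
theorem far (h0 : S_one) {X : Type} [MetricSpace X] (hU : Ury X) (F : Finset X) :
    ∃ (y : X) (R : ℝ), ∀ x ∈ F, dist y x = R := by
  obtain ⟨B, hB⟩ := Metric.isBounded_iff.1 F.finite_toSet.isBounded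
  have h1 := Nat.le_ceil (max B 0)
  have h2 : (0 : ℝ) ≤ (⌈max B 0⌉₊ : ℝ) := Nat.cast_nonneg _
  obtain ⟨y, hy⟩ := h0 X hU F (fun _ => ((⌈max B 0⌉₊ : ℕ) : ℚ)) (fun a _ => Nat.cast_nonneg _)
    (fun a ha b hb => by
      have h3 := hB ha hb
      have h4 := le_max_left B 0
      constructor
      · rw [sub_self, abs_zero]
        exact dist_nonneg
      · push_cast
        linarith)
  exact ⟨y, _, hy⟩

/-- An exhaustion of a countable space by finite sets. -/
theorem exh {X : Type} [Countable X] [Nonempty X] :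
    ∃ F : ℕ → Finset X, ∀ A : Finset X, ∃ N, ∀ n, N ≤ n → A ⊆ F n := by
  classical
  obtain ⟨φ, hφ⟩ := exists_surjective_nat X
  refine ⟨fun n => (Finset.range n).image φ, fun A => ?_⟩
  choose ψ hψ using hφ
  refine ⟨A.sup ψ + 1, fun n hn a ha => ?_⟩
  refine Finset.mem_image.2 ⟨ψ a, ?_, hψ a⟩
  have h1 : ψ a ≤ A.sup ψ := Finset.le_sup ha
  exact Finset.mem_range.2 (by omega)

end Gfix

theorem gfix_spec (h0 : S_one) (h1 : S_uhom) (h3 : S_vfix) (h4 : S_gbdd) (h5 : S_wlim)
    (h6 : S_amap) (h7 : S_mazurT) : S_gfix := by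
  intro X _ hc hU E _ _ _ hR α hα
  classical
  have : Nonempty X := by
    obtain ⟨x, -⟩ := h0 X hU ∅ (fun _ => 0) (by simp) (by simp)
    exact ⟨x⟩
  obtain ⟨x0⟩ := ‹Nonempty X›
  have : Nonempty X := ⟨x0⟩
  obtain ⟨w, hw⟩ := h3 X hc hU E hR α hα x0
  obtain ⟨C, hC⟩ := h4 X hc hU E hR α x0 w hw
  obtain ⟨F, hF⟩ := Gfix.exh (X := X)
  choose y R hy using fun n => Gfix.far h0 hU (F n)
  have hk : ∀ n, ∃ k : X ≃ᵢ X, k x0 = y n := by
    intro n
    obtain ⟨g, hg⟩ := h1 X hc hU Unit (fun _ => x0) (fun _ => y n) (fun _ _ => by simp)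
    exact ⟨g, hg ()⟩
  choose k hk using hk
  obtain ⟨e, he⟩ := h5 E hR (fun n => α (k n) w) ⟨C + ‖w‖, fun n => by
    have := norm_add_le (α (k n) w - w) w
    rw [sub_add_cancel] at this
    exact this.trans (by linarith [hC (k n)])⟩
  refine ⟨e, fun h => ?_⟩
  have key : ∀ ε : ℝ, 0 < ε → dist (α h e) e ≤ ε + ε + ε := by
    intro ε hε
    obtain ⟨A, hA⟩ := hα e 1 ε hε
    obtain ⟨N, hN⟩ := hF (A ∪ A.image (fun a => h.symm a))
    obtain ⟨s, l, hs, hl0, hl1, hz⟩ := h7 E _ e he N ε hε
    have hd1 : ∀ a ∈ A, ∀ i ∈ s, dist (y i) a = R i := fun a ha i hi =>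
      hy i a (hN i (hs i hi) (Finset.mem_union_left _ ha))
    have hd2 : ∀ a ∈ A, ∀ i ∈ s, dist (h (y i)) a = R i := by
      intro a ha i hi
      have h8 := hy i (h.symm a)
        (hN i (hs i hi) (Finset.mem_union_right _ (Finset.mem_image_of_mem _ ha)))
      rw [← h8, ← h.dist_eq (y i) (h.symm a), h.apply_symm_apply]
    obtain ⟨g, hg⟩ := h1 X hc hU ({a // a ∈ A} ⊕ {i // i ∈ s})
      (Sum.elim (fun a => a.1) (fun i => y i.1)) (Sum.elim (fun a => a.1) (fun i => h (y i.1)))
      (by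
        rintro (⟨a, ha⟩ | ⟨i, hi⟩) (⟨b, hb⟩ | ⟨j, hj⟩)
        · rfl
        · simp only [Sum.elim_inl, Sum.elim_inr]
          rw [dist_comm, hd1 a ha j hj, dist_comm, hd2 a ha j hj]
        · simp only [Sum.elim_inl, Sum.elim_inr]
          rw [hd1 b hb i hi, hd2 b hb i hi]
        · simp only [Sum.elim_inr]
          rw [h.dist_eq])
    have hgA : ∀ a ∈ A, g a = a := fun a ha => hg (Sum.inl ⟨a, ha⟩)
    have hgs : ∀ i ∈ s, g (y i) = h (y i) := fun i hi => hg (Sum.inr ⟨i, hi⟩)
    have hb : ∀ i ∈ s, α g (α (k i) w) = α h (α (k i) w) := by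
      intro i hi
      have h8 : ((h * k i)⁻¹ * (g * k i)) x0 = x0 := by
        have e1 : (g * k i) x0 = (h * k i) x0 := by
          change g (k i x0) = h (k i x0)
          rw [hk i, hgs i hi]
        rw [IsometryEquiv.mul_apply, e1, IsometryEquiv.inv_apply_self]
      have h9 := hw _ h8
      have h10 : α (g * k i) w = α (h * k i) w := by
        have h11 : g * k i = (h * k i) * ((h * k i)⁻¹ * (g * k i)) := by group
        rw [h11, map_mul]
        change α (h * k i) (α ((h * k i)⁻¹ * (g * k i)) w) = _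
        rw [h9]
      rw [map_mul, map_mul] at h10
      exact h10
    set z : E := ∑ i ∈ s, l i • α (k i) w with hzdef
    have hzz : α g z = α h z := by
      rw [hzdef, h6 E (α g) s l _ hl1, h6 E (α h) s l _ hl1]
      exact Finset.sum_congr rfl fun i hi => by rw [hb i hi]
    have d1 : dist (α h e) (α h z) < ε := by
      rw [(α h).dist_map, dist_comm, dist_eq_norm]
      exact hz
    have d2 : dist (α h z) (α g e) < ε := by
      rw [← hzz, (α g).dist_map, dist_eq_norm]
      exact hz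
    have d3 : dist (α g e) e < ε := by
      have := hA g (fun x hx => by rw [hgA x hx]; rfl)
      rwa [map_one] at this
    have d4 := dist_triangle4 (α h e) (α h z) (α g e) e
    linarith
  have h12 : dist (α h e) e ≤ 0 := by
    refine le_of_forall_pos_le_add fun ε hε => ?_
    have := key (ε / 3) (by positivity)
    linarith
  exact dist_le_zero.1 h12

end

end Pool.Agent.Y938.QU
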