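import Pool.Agent.Y938.QU.Stm

/-!
# Kalton's lemma
-/

set_option autoImplicit false

namespace Pool.Agent.Y938.QU

open Filter Topology Pool.Agent.Y938.AQ

namespace Kalton

noncomputable section

/-- the ultrafilter -/
abbrev UF : Filter ℕ := (↑(Filter.hyperfilter ℕ) : Filter ℕ)

/-- iterated quantifier -/
def Q : ℕ → (List ℕ → Prop) → Prop
  | 0, P => P []
  | k + 1, P => ∀ᶠ n in UF, Q k fun p => P (n :: p)

/-- iterated quantifier for pairs, in the interlaced order -/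
def QQ : ℕ → (List ℕ → List ℕ → Prop) → Prop
  | 0, P => P [] []
  | k + 1, P => ∀ᶠ n in UF, ∀ᶠ m in UF, QQ k fun p q => P (n :: p) (m :: q)

theorem QQ_mono {k : ℕ} : ∀ {P P' : List ℕ → List ℕ → Prop}, (∀ p q, P p q → P' p q) →
    QQ k P → QQ k P' := by
  induction k with
  | zero => exact fun h hP => h _ _ hP
  | succ k ih =>
    intro P P' h hP
    have hP : ∀ᶠ n in UF, ∀ᶠ m in UF, QQ k fun p q => P (n :: p) (m :: q) := hP
    show ∀ᶠ n in UF, ∀ᶠ m in UF, QQ k fun p q => P' (n :: p) (m :: q)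
    filter_upwards [hP] with n hn
    filter_upwards [hn] with m hm
    exact ih (fun p q => h _ _) hm

theorem QQ_and {k : ℕ} : ∀ {P P' : List ℕ → List ℕ → Prop}, QQ k P → QQ k P' →
    QQ k fun p q => P p q ∧ P' p q := by
  induction k with
  | zero => exact fun h h' => ⟨h, h'⟩
  | succ k ih =>
    intro P P' h h'
    have h : ∀ᶠ n in UF, ∀ᶠ m in UF, QQ k fun p q => P (n :: p) (m :: q) := h
    have h' : ∀ᶠ n in UF, ∀ᶠ m in UF, QQ k fun p q => P' (n :: p) (m :: q) := h'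
    show ∀ᶠ n in UF, ∀ᶠ m in UF, QQ k fun p q => P (n :: p) (m :: q) ∧ P' (n :: p) (m :: q)
    filter_upwards [h, h'] with n hn hn'
    filter_upwards [hn, hn'] with m hm hm'
    exact ih hm hm'

theorem QQ_exists {k : ℕ} : ∀ {P : List ℕ → List ℕ → Prop}, QQ k P → ∃ p q : List ℕ,
    p.length = k ∧ q.length = k ∧ P p q := by
  induction k with
  | zero => exact fun h => ⟨[], [], rfl, rfl, h⟩
  | succ k ih =>
    intro P h
    have h : ∀ᶠ n in UF, ∀ᶠ m in UF, QQ k fun p q => P (n :: p) (m :: q) := h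
    obtain ⟨n, hn⟩ := h.exists
    obtain ⟨m, hm⟩ := hn.exists
    obtain ⟨p, q, hp, hq, hP⟩ := ih hm
    exact ⟨n :: p, m :: q, by rw [List.length_cons, hp], by rw [List.length_cons, hq], hP⟩

theorem ev_gt (b : ℕ) : ∀ᶠ n in UF, b < n := by
  have h : ∀ᶠ n in (atTop : Filter ℕ), b < n := eventually_gt_atTop b
  rw [← Nat.cofinite_eq_atTop] at h
  exact Filter.hyperfilter_le_cofinite h

theorem QQ_inter {k : ℕ} : ∀ b : ℕ, QQ k fun p q => Inter p q ∧ ∀ c ∈ p.head?, b < c := by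
  induction k with
  | zero =>
    intro b
    refine ⟨trivial, fun c hc => ?_⟩
    simp at hc
  | succ k ih =>
    intro b
    show ∀ᶠ n in UF, ∀ᶠ m in UF, QQ k fun p q => Inter (n :: p) (m :: q) ∧
      ∀ c ∈ (n :: p).head?, b < c
    filter_upwards [ev_gt b] with n hn
    filter_upwards [ev_gt n] with m hm
    refine QQ_mono (fun p q h => ?_) (ih m)
    refine ⟨⟨hm, h.2, h.1⟩, fun c hc => ?_⟩
    simp only [List.head?_cons, Option.mem_def, Option.some.injEq] at hc
    rw [← hc]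
    exact hn

/-- dichotomy -/
theorem Q_or {k : ℕ} : ∀ P : List ℕ → Prop, Q k P ∨ Q k fun p => ¬ P p := by
  induction k with
  | zero => exact fun P => em (P [])
  | succ k ih =>
    intro P
    show (∀ᶠ n in UF, Q k fun p => P (n :: p)) ∨ ∀ᶠ n in UF, Q k fun p => ¬ P (n :: p)
    rw [← Ultrafilter.eventually_or]
    exact Eventually.of_forall fun n => ih fun p => P (n :: p)

theorem QQ_of_Q {k : ℕ} : ∀ {P : List ℕ → Prop}, Q k P → QQ k fun _ q => P q := by
  induction k with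
  | zero => exact fun h => h
  | succ k ih =>
    intro P h
    have h : ∀ᶠ n in UF, Q k fun p => P (n :: p) := h
    show ∀ᶠ n in UF, ∀ᶠ m in UF, QQ k fun _ q => P (m :: q)
    refine Eventually.of_forall fun n => ?_
    filter_upwards [h] with m hm
    exact ih hm

theorem Q_exists {k : ℕ} : ∀ {P : List ℕ → Prop}, Q k P → ∀ b : ℕ, ∃ p : List ℕ,
    p.length = k ∧ P p ∧ (∀ x ∈ p, b < x) ∧ p.Pairwise (· < ·) := by
  induction k with
  | zero => exact fun h b => ⟨[], rfl, h, by simp, List.Pairwise.nil⟩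
  | succ k ih =>
    intro P h b
    have h : ∀ᶠ n in UF, Q k fun p => P (n :: p) := h
    obtain ⟨n, hn, hb⟩ := (h.and (ev_gt b)).exists
    obtain ⟨p, hp, hP, hx, hs⟩ := ih hn n
    refine ⟨n :: p, by rw [List.length_cons, hp], hP, fun x hx' => ?_, List.Pairwise.cons hx hs⟩
    rcases List.mem_cons.1 hx' with rfl | hx'
    · exact hb
    · exact hb.trans (hx x hx')

section

variable {E : Type} [NormedAddCommGroup E] [NormedSpace ℝ E]

/-- iterated weak limit -/
def IW : ℕ → (List ℕ → E) → E → Prop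
  | 0, f, u => f [] = u
  | k + 1, f, u => ∃ u' : ℕ → E, (∀ n, IW k (fun p => f (n :: p)) (u' n)) ∧ WL u' u

/-- iterated weak star limit -/
def IV : ℕ → (List ℕ → StrongDual ℝ E) → StrongDual ℝ E → Prop
  | 0, g, G => g [] = G
  | k + 1, g, G => ∃ G' : ℕ → StrongDual ℝ E, (∀ n, IV k (fun p => g (n :: p)) (G' n)) ∧
      ∀ x : E, Tendsto (fun n => G' n x) UF (𝓝 (G x))

theorem WL_norm {u : ℕ → E} {w : E} {B : ℝ} (h : WL u w) (hB : ∀ n, ‖u n‖ ≤ B) : ‖w‖ ≤ B := by
  obtain ⟨φ, hφ, hφw⟩ := exists_dual_vector'' ℝ w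
  have h1 := h φ
  rw [hφw] at h1
  refine le_of_tendsto h1 (Eventually.of_forall fun n => ?_)
  calc φ (u n) ≤ ‖φ (u n)‖ := le_abs_self _
    _ ≤ ‖φ‖ * ‖u n‖ := φ.le_opNorm _
    _ ≤ 1 * ‖u n‖ := mul_le_mul_of_nonneg_right hφ (norm_nonneg _)
    _ ≤ B := by rw [one_mul]; exact hB n

theorem IW_exists [CompleteSpace E] (h1 : S_wlim) (hR : Refl E) {B : ℝ} {k : ℕ} :
    ∀ f : List ℕ → E, (∀ p, ‖f p‖ ≤ B) → ∃ u, ‖u‖ ≤ B ∧ IW k f u := by
  induction k with
  | zero => exact fun f hf => ⟨f [], hf [], rfl⟩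
  | succ k ih =>
    intro f hf
    have h : ∀ n, ∃ u, ‖u‖ ≤ B ∧ IW k (fun p => f (n :: p)) u := fun n =>
      ih (fun p => f (n :: p)) fun p => hf _
    choose u' hu' hu using h
    obtain ⟨w, hw⟩ := h1 E hR u' ⟨B, hu'⟩
    exact ⟨w, WL_norm hw hu', u', hu, hw⟩

theorem weakstar (G' : ℕ → StrongDual ℝ E) (hG : ∀ n, ‖G' n‖ ≤ 1) : ∃ G : StrongDual ℝ E,
    ‖G‖ ≤ 1 ∧ ∀ x : E, Tendsto (fun n => G' n x) UF (𝓝 (G x)) := by
  have hc := WeakDual.isCompact_closedBall (𝕜 := ℝ) (0 : StrongDual ℝ E) 1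
  obtain ⟨G, hG1, hG2⟩ := hc.ultrafilter_le_nhds
    ((Filter.hyperfilter ℕ).map fun n => StrongDual.toWeakDual (G' n)) (by
      rw [Ultrafilter.coe_map, le_principal_iff, mem_map]
      refine Eventually.of_forall fun n => ?_
      show WeakDual.toStrongDual (StrongDual.toWeakDual (G' n)) ∈ Metric.closedBall 0 1
      rw [mem_closedBall_zero_iff]
      exact hG n)
  refine ⟨WeakDual.toStrongDual G, ?_, fun x => ?_⟩
  · have : WeakDual.toStrongDual G ∈ Metric.closedBall 0 1 := hG1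
    rwa [mem_closedBall_zero_iff] at this
  · have h2 : Tendsto (fun n => StrongDual.toWeakDual (G' n)) UF (𝓝 G) := hG2
    exact ((WeakDual.eval_continuous x).tendsto G).comp h2

theorem IV_exists {k : ℕ} : ∀ g : List ℕ → StrongDual ℝ E, (∀ p, ‖g p‖ ≤ 1) →
    ∃ G, ‖G‖ ≤ 1 ∧ IV k g G := by
  induction k with
  | zero => exact fun g hg => ⟨g [], hg [], rfl⟩
  | succ k ih =>
    intro g hg
    have h : ∀ n, ∃ G, ‖G‖ ≤ 1 ∧ IV k (fun p => g (n :: p)) G := fun n =>
      ih (fun p => g (n :: p)) fun p => hg _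
    choose G' hG' hG using h
    obtain ⟨G, h2, h3⟩ := weakstar G' hG'
    exact ⟨G, h2, G', hG, h3⟩

/-- the iterated limit of the scalar products -/
theorem limit {k : ℕ} : ∀ {f : List ℕ → E} {g : List ℕ → StrongDual ℝ E} {u : E}
    {G : StrongDual ℝ E}, IW k f u → IV k g G → ∀ ε : ℝ, 0 < ε →
      QQ k fun p q => |g q (f p) - G u| < ε := by
  induction k with
  | zero =>
    intro f g u G hf hg ε hε
    have hf : f [] = u := hf
    have hg : g [] = G := hg
    show |g [] (f []) - G u| < ε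
    rw [hf, hg, sub_self, abs_zero]
    exact hε
  | succ k ih =>
    intro f g u G hf hg ε hε
    obtain ⟨u', hu', hwl⟩ := hf
    obtain ⟨G', hG', hG⟩ := hg
    show ∀ᶠ n in UF, ∀ᶠ m in UF, QQ k fun p q => |g (m :: q) (f (n :: p)) - G u| < ε
    have h1 : ∀ᶠ n in UF, |G (u' n) - G u| < ε / 3 := by
      have := (Metric.tendsto_nhds.1 (hwl G)) (ε / 3) (by positivity)
      simpa only [Real.dist_eq] using this
    filter_upwards [h1] with n hn
    have h2 : ∀ᶠ m in UF, |G' m (u' n) - G (u' n)| < ε / 3 := by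
      have := (Metric.tendsto_nhds.1 (hG (u' n))) (ε / 3) (by positivity)
      simpa only [Real.dist_eq] using this
    filter_upwards [h2] with m hm
    refine QQ_mono (fun p q h => ?_) (ih (hu' n) (hG' m) (ε / 3) (by positivity))
    rw [abs_lt] at h hn hm ⊢
    constructor <;> linarith [h.1, h.2, hn.1, hn.2, hm.1, hm.2]

/-- constants -/
theorem IW_const {k : ℕ} (u : E) : IW k (fun _ => u) u := by
  induction k with
  | zero => rfl
  | succ k ih => exact ⟨fun _ => u, fun _ => ih, fun φ => tendsto_const_nhds⟩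

end

end

end Kalton

open Kalton in
/-- Kalton's lemma -/
theorem kalton_spec (h1 : S_wlim) : S_kalton := by
  intro E _ _ _ hR k f B C hB hC hI ε hε
  obtain ⟨u, _, hu⟩ := IW_exists h1 hR (k := k) f hB
  have key : Q k fun p => ‖f p - u‖ ≤ C + ε / 2 := by
    rcases Q_or (k := k) fun p => ‖f p - u‖ ≤ C + ε / 2 with h | h
    · exact h
    exfalso
    have hg : ∀ p, ∃ g : StrongDual ℝ E, ‖g‖ ≤ 1 ∧ g (f p - u) = ‖f p - u‖ := fun p =>
      exists_dual_vector'' ℝ (f p - u)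
    choose g hg1 hg2 using hg
    obtain ⟨G, _, hG⟩ := IV_exists (k := k) g hg1
    have l1 := limit hu hG (ε / 4) (by positivity)
    have l2 := limit (IW_const (k := k) u) hG (ε / 4) (by positivity)
    have l3 := QQ_of_Q h
    have l4 := QQ_inter (k := k) 0
    obtain ⟨p, q, hp, hq, ⟨h1, h2⟩, h3, h4, _⟩ := QQ_exists (QQ_and (QQ_and l1 l2) (QQ_and l3 l4))
    have h5 := hI p q hp hq h4
    have h6 : g q (f q - f p) ≤ C := by
      calc g q (f q - f p) ≤ ‖g q (f q - f p)‖ := le_abs_self _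
        _ ≤ ‖g q‖ * ‖f q - f p‖ := (g q).le_opNorm _
        _ ≤ 1 * ‖f q - f p‖ := mul_le_mul_of_nonneg_right (hg1 q) (norm_nonneg _)
        _ ≤ C := by rw [one_mul, norm_sub_rev]; exact h5
    have h7 := hg2 q
    rw [map_sub] at h6 h7
    rw [not_le] at h3
    rw [abs_lt] at h1 h2
    linarith [h1.1, h1.2, h2.1, h2.2]
  obtain ⟨p, hp, hpu, _, hps⟩ := Q_exists key 0
  obtain ⟨q, hq, hqu, hqb, hqs⟩ := Q_exists key (p.toFinset.sup id)
  refine ⟨p, q, hp, hq, ?_, ?_⟩
  · rw [List.pairwise_append]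
    refine ⟨hps, hqs, fun a ha b hb => ?_⟩
    have h8 : a ≤ p.toFinset.sup id := Finset.le_sup (f := id) (List.mem_toFinset.2 ha)
    exact lt_of_le_of_lt h8 (hqb b hb)
  · have h9 : f p - f q = (f p - u) - (f q - u) := by abel
    rw [h9]
    refine (norm_sub_le _ _).trans ?_
    linarith

end Pool.Agent.Y938.QU
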