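import Pool.Agent.Y938.QU.Stm

set_option autoImplicit false

/-! Project QU: ultrahomogeneity of the rational Urysohn space by back and forth (helper41). -/

namespace Pool.Agent.Y938.QU

open Filter Topology Pool.Agent.Y938.AQ

namespace Uhom

variable {X : Type} [MetricSpace X]

/-- finite partial isometries -/
def IsP (s : Finset (X × X)) : Prop := ∀ p ∈ s, ∀ q ∈ s, dist p.1 q.1 = dist p.2 q.2

/-- the partial isometries -/
def P (X : Type) [MetricSpace X] : Type := {s : Finset (X × X) // IsP s}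

instance : PartialOrder (P X) := inferInstanceAs (PartialOrder {s : Finset (X × X) // IsP s})

theorem le_iff (s t : P X) : s ≤ t ↔ s.1 ⊆ t.1 := Iff.rfl

/-- every point can be added to the domain -/
theorem ext_dom (h : S_one) (hU : Ury X) (s : P X) (a : X) :
    ∃ t : P X, s ≤ t ∧ ∃ b, (a, b) ∈ t.1 := by
  classical
  choose r hr using hU.1
  let f : X → ℚ := fun c => if hc : ∃ p ∈ s.1, p.2 = c then r a hc.choose.1 else 0
  have hf : ∀ p ∈ s.1, f p.2 = r a p.1 := by
    intro p hp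
    have hc : ∃ q ∈ s.1, q.2 = p.2 := ⟨p, hp, rfl⟩
    have h1 : f p.2 = r a hc.choose.1 := dif_pos hc
    have h2 := hc.choose_spec
    have h3 : dist hc.choose.1 p.1 = 0 := by
      rw [s.2 _ h2.1 _ hp, h2.2, dist_self]
    rw [h1, dist_eq_zero.mp h3]
  obtain ⟨b, hb⟩ := h X hU (s.1.image Prod.snd) f (by
    intro c hc
    obtain ⟨p, hp, rfl⟩ := Finset.mem_image.mp hc
    have : (0 : ℝ) ≤ (f p.2 : ℝ) := by
      rw [hf p hp, ← hr]
      exact dist_nonneg
    exact_mod_cast this) (by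
    intro c hc d hd
    obtain ⟨p, hp, rfl⟩ := Finset.mem_image.mp hc
    obtain ⟨q, hq, rfl⟩ := Finset.mem_image.mp hd
    rw [hf p hp, hf q hq, ← hr, ← hr, ← s.2 p hp q hq]
    constructor
    · rw [abs_le]
      constructor
      · have := dist_triangle a p.1 q.1
        linarith
      · have := dist_triangle a q.1 p.1
        rw [dist_comm q.1 p.1] at this
        linarith
    · have := dist_triangle p.1 a q.1
      rw [dist_comm p.1 a] at this
      exact this)
  have hb' : ∀ p ∈ s.1, dist b p.2 = dist a p.1 := by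
    intro p hp
    rw [hb p.2 (Finset.mem_image_of_mem _ hp), hf p hp, ← hr]
  refine ⟨⟨insert (a, b) s.1, ?_⟩, ?_, b, Finset.mem_insert_self _ _⟩
  · intro p hp q hq
    rcases Finset.mem_insert.mp hp with rfl | hp
    · rcases Finset.mem_insert.mp hq with rfl | hq
      · simp
      · exact (hb' q hq).symm
    · rcases Finset.mem_insert.mp hq with rfl | hq
      · have := hb' p hp
        rw [dist_comm b, dist_comm a] at this
        exact this.symm
      · exact s.2 p hp q hq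
  · exact Finset.subset_insert _ _

/-- the inverse partial isometry -/
def inv [DecidableEq X] (s : P X) : P X := ⟨s.1.image Prod.swap, by
  intro p hp q hq
  obtain ⟨p', hp', rfl⟩ := Finset.mem_image.mp hp
  obtain ⟨q', hq', rfl⟩ := Finset.mem_image.mp hq
  exact (s.2 p' hp' q' hq').symm⟩

theorem ext_rng (h : S_one) (hU : Ury X) (s : P X) (b : X) :
    ∃ t : P X, s ≤ t ∧ ∃ a, (a, b) ∈ t.1 := by
  classical
  obtain ⟨t, hst, a, ha⟩ := ext_dom h hU (inv s) b
  refine ⟨inv t, ?_, a, ?_⟩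
  · intro p hp
    have h1 : p.swap ∈ (inv s).1 := Finset.mem_image_of_mem _ hp
    have h2 := hst h1
    exact Finset.mem_image.mpr ⟨p.swap, h2, Prod.swap_swap p⟩
  · exact Finset.mem_image.mpr ⟨(b, a), ha, rfl⟩

end Uhom

open Uhom in
theorem uhom_spec (h : S_one) : S_uhom := by
  classical
  intro X _ hc hU ι _ x y hxy
  let _ : Encodable X := Encodable.ofCountable X
  let _ : Fintype ι := Fintype.ofFinite ι
  let p0 : P X := ⟨Finset.univ.image fun i => (x i, y i), by
    intro p hp q hq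
    obtain ⟨i, -, rfl⟩ := Finset.mem_image.mp hp
    obtain ⟨j, -, rfl⟩ := Finset.mem_image.mp hq
    exact hxy i j⟩
  let D : X ⊕ X → Order.Cofinal (P X) := fun c => match c with
    | Sum.inl a => ⟨{t | ∃ b, (a, b) ∈ t.1}, fun s => by
        obtain ⟨t, h1, h2⟩ := ext_dom h hU s a
        exact ⟨t, h2, h1⟩⟩
    | Sum.inr b => ⟨{t | ∃ a, (a, b) ∈ t.1}, fun s => by
        obtain ⟨t, h1, h2⟩ := ext_rng h hU s b
        exact ⟨t, h2, h1⟩⟩
  let I : Order.Ideal (P X) := Order.idealOfCofinals p0 D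
  have hdir : ∀ a b a' b' : X, (∃ s ∈ I, (a, b) ∈ s.1) → (∃ s ∈ I, (a', b') ∈ s.1) →
      dist a a' = dist b b' := by
    rintro a b a' b' ⟨s, hs, hs'⟩ ⟨t, ht, ht'⟩
    obtain ⟨u, hu, h1, h2⟩ := I.directed s hs t ht
    exact u.2 _ (h1 hs') _ (h2 ht')
  have hF : ∀ a : X, ∃ b, ∃ s ∈ I, (a, b) ∈ s.1 := by
    intro a
    obtain ⟨s, ⟨b, hb⟩, hs⟩ := Order.cofinal_meets_idealOfCofinals p0 D (Sum.inl a)
    exact ⟨b, s, hs, hb⟩
  have hG : ∀ b : X, ∃ a, ∃ s ∈ I, (a, b) ∈ s.1 := by
    intro b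
    obtain ⟨s, ⟨a, ha⟩, hs⟩ := Order.cofinal_meets_idealOfCofinals p0 D (Sum.inr b)
    exact ⟨a, s, hs, ha⟩
  choose F hF using hF
  choose G hG using hG
  refine ⟨IsometryEquiv.mk ⟨F, G, ?_, ?_⟩ ?_, ?_⟩
  · intro a
    apply dist_eq_zero.mp
    rw [hdir _ _ _ _ (hG (F a)) (hF a), dist_self]
  · intro b
    apply dist_eq_zero.mp
    rw [← hdir _ _ _ _ (hF (G b)) (hG b), dist_self]
  · apply Isometry.of_dist_eq
    intro a a'
    exact (hdir _ _ _ _ (hF a) (hF a')).symm
  · intro i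
    apply dist_eq_zero.mp
    have h1 : ∃ s ∈ I, (x i, y i) ∈ s.1 :=
      ⟨p0, Order.mem_idealOfCofinals p0 D, Finset.mem_image_of_mem _ (Finset.mem_univ i)⟩
    change dist (F (x i)) (y i) = 0
    rw [← hdir _ _ _ _ (hF (x i)) h1, dist_self]

end Pool.Agent.Y938.QU
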