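import Pool.Agent.Y938.QU.Stm

set_option autoImplicit false

/-! Project QU: Mazur's lemma for tails; orbits of point stabilisers are bounded (helper41). -/

namespace Pool.Agent.Y938.QU

open Filter Topology Pool.Agent.Y938.AQ

theorem mazurT_spec : S_mazurT := by
  classical
  intro E _ _ u w h N ε hε
  have hw : w ∈ closure (convexHull ℝ (u '' {i | N ≤ i})) := by
    by_contra hc
    obtain ⟨f, s, h1, h2⟩ := geometric_hahn_banach_point_closed
      (convex_convexHull ℝ (u '' {i | N ≤ i})).closure isClosed_closure hc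
    have h0 : ∀ᶠ n in (↑(Filter.hyperfilter ℕ) : Filter ℕ), N ≤ n :=
      Nat.hyperfilter_le_atTop (eventually_ge_atTop N)
    have h3 : s ≤ f w := by
      refine ge_of_tendsto (h f) ?_
      filter_upwards [h0] with n hn
      exact (h2 (u n) (subset_closure (subset_convexHull ℝ _ ⟨n, hn, rfl⟩))).le
    linarith
  obtain ⟨b, hb, hdb⟩ := Metric.mem_closure_iff.1 hw ε hε
  rw [convexHull_eq] at hb
  obtain ⟨ι, t, c, z, hc0, hc1, hz, rfl⟩ := hb
  choose! n hn0 hn using hz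
  refine ⟨t.image n, fun j => ∑ i ∈ t.filter (fun i => n i = j), c i, ?_, ?_, ?_, ?_⟩
  · intro j hj
    obtain ⟨i, hi, rfl⟩ := Finset.mem_image.mp hj
    exact hn0 i hi
  · intro j _
    exact Finset.sum_nonneg (fun i hi => hc0 i (Finset.mem_filter.1 hi).1)
  · rw [Finset.sum_fiberwise_of_maps_to (fun i hi => Finset.mem_image_of_mem n hi)]
    exact hc1
  · have e : ∑ j ∈ t.image n, (∑ i ∈ t.filter (fun i => n i = j), c i) • u j =
        t.centerMass c z := by
      rw [Finset.centerMass_eq_of_sum_1 _ _ hc1,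
        ← Finset.sum_fiberwise_of_maps_to (fun i hi => Finset.mem_image_of_mem n hi)]
      refine Finset.sum_congr rfl (fun j _ => ?_)
      rw [Finset.sum_smul]
      refine Finset.sum_congr rfl (fun i hi => ?_)
      obtain ⟨h1, h2⟩ := Finset.mem_filter.1 hi
      rw [← hn i h1, h2]
    rw [e, ← dist_eq_norm, dist_comm]
    exact hdb

namespace Vbdd

variable {X E : Type} [MetricSpace X] [NormedAddCommGroup E] [NormedSpace ℝ E]

theorem d_mul (α : (X ≃ᵢ X) →* (E ≃ᵃⁱ[ℝ] E)) (v : E) (g h : X ≃ᵢ X) :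
    dist (α (g * h) v) v ≤ dist (α g v) v + dist (α h v) v := by
  have h1 : α (g * h) v = α g (α h v) := by rw [map_mul]; rfl
  rw [h1]
  have h2 := dist_triangle (α g (α h v)) (α g v) v
  rw [AffineIsometryEquiv.dist_map] at h2
  linarith

theorem d_inv (α : (X ≃ᵢ X) →* (E ≃ᵃⁱ[ℝ] E)) (v : E) (g : X ≃ᵢ X) :
    dist (α g⁻¹ v) v = dist (α g v) v := by
  have h1 : α g (α g⁻¹ v) = v := by
    have : α g (α g⁻¹ v) = α (g * g⁻¹) v := by rw [map_mul]; rfl
    rw [this, mul_inv_cancel, map_one]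
    rfl
  have h2 : dist (α g (α g⁻¹ v)) (α g v) = dist (α g⁻¹ v) v := AffineIsometryEquiv.dist_map _ _ _
  rw [← h2, h1, dist_comm]

end Vbdd

open Vbdd in
theorem vbdd_spec (h1 : S_uhom) (h2 : S_am) : S_vbdd := by
  classical
  intro X _ hc hU E _ _ α hα x0 v
  obtain ⟨F, hF⟩ := hα v 1 1 one_pos
  set A : Finset X := insert x0 F with hA
  have hA1 : ∀ h : X ≃ᵢ X, (∀ x ∈ A, h x = x) → dist (α h v) v ≤ 1 := by
    intro h hh
    have := hF h (fun x hx => hh x (Finset.mem_insert_of_mem hx))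
    rw [map_one] at this
    exact this.le
  obtain ⟨k, hk0, hk⟩ := h2 X hc hU x0 A A
  refine ⟨2 * dist (α k v) v + 4, ?_⟩
  intro g hg
  obtain ⟨k', hk0', hk'⟩ := h2 X hc hU x0 A (A ∪ A.image g)
  have hkA : ∀ a ∈ A, ∀ b ∈ A, dist (k' a) b = dist a x0 + dist x0 b :=
    fun a ha b hb => hk' a ha b (Finset.mem_union_left _ hb)
  have hkg : ∀ a ∈ A, ∀ b ∈ A, dist (k' a) (g b) = dist a x0 + dist x0 b := by
    intro a ha b hb
    rw [hk' a ha (g b) (Finset.mem_union_right _ (Finset.mem_image_of_mem _ hb))]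
    conv_lhs => rw [← hg]
    rw [g.isometry.dist_eq]
    congr 1
    rw [hg]
  obtain ⟨u, hu⟩ := h1 X hc hU (A ⊕ A) (Sum.elim (fun a => (a : X)) (fun a => k a))
    (Sum.elim (fun a => (a : X)) (fun a => k' a)) (by
      rintro (a | a) (b | b)
      · rfl
      · change dist (a : X) (k b) = dist (a : X) (k' b)
        rw [dist_comm, hk b b.2 a a.2, dist_comm (a : X), hkA b b.2 a a.2]
      · change dist (k a) (b : X) = dist (k' a) (b : X)
        rw [hk a a.2 b b.2, hkA a a.2 b b.2]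
      · change dist (k a) (k b) = dist (k' a) (k' b)
        rw [k.isometry.dist_eq, k'.isometry.dist_eq])
  have hu1 : ∀ a ∈ A, u a = a := fun a ha => hu (Sum.inl ⟨a, ha⟩)
  have hu2 : ∀ a ∈ A, u (k a) = k' a := fun a ha => hu (Sum.inr ⟨a, ha⟩)
  obtain ⟨t, ht⟩ := h1 X hc hU (A ⊕ A) (Sum.elim (fun a => (a : X)) (fun a => k' a))
    (Sum.elim (fun a => g a) (fun a => k' a)) (by
      rintro (a | a) (b | b)
      · exact (g.isometry.dist_eq _ _).symm
      · change dist (a : X) (k' b) = dist (g a) (k' b)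
        rw [dist_comm, hkA b b.2 a a.2, dist_comm (g a), hkg b b.2 a a.2]
      · change dist (k' a) (b : X) = dist (k' a) (g b)
        rw [hkA a a.2 b b.2, hkg a a.2 b b.2]
      · rfl)
  have ht1 : ∀ a ∈ A, t a = g a := fun a ha => ht (Sum.inl ⟨a, ha⟩)
  have ht2 : ∀ a ∈ A, t (k' a) = k' a := fun a ha => ht (Sum.inr ⟨a, ha⟩)
  have e1 : dist (α u v) v ≤ 1 := hA1 u hu1
  have e2 : dist (α (t⁻¹ * g) v) v ≤ 1 := by
    apply hA1
    intro a ha
    rw [IsometryEquiv.mul_apply, ← ht1 a ha, IsometryEquiv.inv_apply_self]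
  have e3 : dist (α ((u * k)⁻¹ * t * (u * k)) v) v ≤ 1 := by
    apply hA1
    intro a ha
    have h3 : (u * k) a = k' a := hu2 a ha
    have h4 : ((u * k)⁻¹ * t * (u * k)) a = (u * k)⁻¹ (t ((u * k) a)) := rfl
    rw [h4, h3, ht2 a ha, ← h3, IsometryEquiv.inv_apply_self]
  have e4 : g = (u * k) * ((u * k)⁻¹ * t * (u * k)) * (u * k)⁻¹ * (t⁻¹ * g) := by group
  have e5 := d_mul α v ((u * k) * ((u * k)⁻¹ * t * (u * k)) * (u * k)⁻¹) (t⁻¹ * g)
  have e6 := d_mul α v ((u * k) * ((u * k)⁻¹ * t * (u * k))) (u * k)⁻¹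
  have e7 := d_mul α v (u * k) ((u * k)⁻¹ * t * (u * k))
  have e8 := d_mul α v u k
  rw [d_inv] at e6
  rw [← e4] at e5
  rw [← dist_eq_norm]
  linarith

end Pool.Agent.Y938.QU
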