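import Pool.Agent.Y938.QU.Stm

set_option autoImplicit false

/-! Project QU: point stabilisers have fixed vectors (job QU5, author helper420). -/

namespace Pool.Agent.Y938.QU

open Filter Topology Pool.Agent.Y938.AQ

namespace Vfix

theorem exhaust (X : Type) [Countable X] (x0 : X) :
    ∃ F : ℕ → Finset X, Monotone F ∧ (∀ n, x0 ∈ F n) ∧ ∀ x, ∃ n, x ∈ F n := by
  classical
  have : Nonempty X := ⟨x0⟩
  obtain ⟨e, he⟩ := exists_surjective_nat X
  refine ⟨fun n => insert x0 ((Finset.range n).image e), ?_, fun n => Finset.mem_insert_self _ _,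
    fun x => ?_⟩
  · intro m n hmn
    apply Finset.insert_subset_insert
    apply Finset.image_subset_image
    exact Finset.range_mono hmn
  · obtain ⟨k, rfl⟩ := he x
    refine ⟨k + 1, Finset.mem_insert_of_mem (Finset.mem_image_of_mem e ?_)⟩
    rw [Finset.mem_range]
    omega

theorem exhaust_fin (X : Type) (F : ℕ → Finset X) (hF : Monotone F) (hc : ∀ x, ∃ n, x ∈ F n)
    (A : Finset X) : ∃ n, A ⊆ F n := by
  classical
  induction A using Finset.induction_on with
  | empty => exact ⟨0, Finset.empty_subset _⟩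
  | insert a A _ ih =>
    obtain ⟨n, hn⟩ := ih
    obtain ⟨m, hm⟩ := hc a
    refine ⟨max n m, ?_⟩
    intro x hx
    rw [Finset.mem_insert] at hx
    rcases hx with rfl | hx
    · exact hF (le_max_right n m) hm
    · exact hF (le_max_left n m) (hn hx)

end Vfix

theorem vfix_spec (h1 : S_uhom) (h2 : S_am) (h3 : S_vbdd) (h4 : S_wlim) (h5 : S_amap)
    (h6 : S_mazurT) (_h7 : S_wmap) : S_vfix := by
  classical
  intro X _ hX hU E _ _ _ hR α hα x0
  obtain ⟨F, hFm, hF0, hFc⟩ := Vfix.exhaust X x0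
  have hg : ∀ n, ∃ k : X ≃ᵢ X, k x0 = x0 ∧
      ∀ a ∈ F n, ∀ b ∈ F n, dist (k a) b = dist a x0 + dist x0 b :=
    fun n => h2 X hX hU x0 (F n) (F n)
  choose g hg0 hgd using hg
  obtain ⟨C, hC⟩ := h3 X hX hU E α hα x0 0
  obtain ⟨w, hw⟩ := h4 E hR (fun n => α (g n) 0) ⟨C, fun n => by simpa using hC (g n) (hg0 n)⟩
  refine ⟨w, fun h hh => ?_⟩
  have hone : ∀ v : E, α 1 v = v := fun v => by rw [map_one]; rfl
  have hmul : ∀ (a b : X ≃ᵢ X) (v : E), α (a * b) v = α a (α b v) := fun a b v => by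
    rw [map_mul]; rfl
  have key : ∀ ε : ℝ, 0 < ε → dist (α h w) w < 4 * ε := by
    intro ε hε
    obtain ⟨F', hF'⟩ := hα w 1 ε hε
    obtain ⟨A, hA⟩ := hα 0 1 ε hε
    rw [hone] at hF' hA
    obtain ⟨N, hN⟩ := Vfix.exhaust_fin X F hFm hFc (A ∪ F' ∪ F'.image (fun x => h.symm x))
    have hNA : ∀ i, N ≤ i → ∀ a ∈ A, a ∈ F i := fun i hi a ha =>
      hFm hi (hN (by simp [ha]))
    have hNF : ∀ i, N ≤ i → ∀ a ∈ F', a ∈ F i := fun i hi a ha =>
      hFm hi (hN (by simp [ha]))
    have hNh : ∀ i, N ≤ i → ∀ a ∈ F', h.symm a ∈ F i := fun i hi a ha =>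
      hFm hi (hN (by
        rw [Finset.mem_union]
        right
        exact Finset.mem_image_of_mem _ ha))
    obtain ⟨s, l, hs, hl, hl1, hz⟩ := h6 E (fun n => α (g n) 0) w hw N ε hε
    obtain ⟨z, hzd⟩ : ∃ z, z = ∑ i ∈ s, l i • α (g i) 0 := ⟨_, rfl⟩
    have hz' : ‖z - w‖ < ε := by rw [hzd]; exact hz
    -- the element g
    have hex : ∃ k : X ≃ᵢ X, (∀ f ∈ F', k f = f) ∧ ∀ i ∈ s, ∀ a ∈ A, k (g i a) = h (g i a) := by
      obtain ⟨k, hk⟩ := h1 X hX hU (F' ⊕ (s × A))
        (Sum.elim (fun f => (f : X)) (fun ia => g ia.1 (ia.2 : X)))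
        (Sum.elim (fun f => (f : X)) (fun ia => h (g ia.1 (ia.2 : X)))) (by
          have hmix : ∀ f ∈ F', ∀ i ∈ s, ∀ a ∈ A, dist f (g i a) = dist f (h (g i a)) := by
            intro f hf i hi a ha
            have e1 : dist (g i a) f = dist a x0 + dist x0 f :=
              hgd i a (hNA i (hs i hi) a ha) f (hNF i (hs i hi) f hf)
            have e2 : dist (g i a) (h.symm f) = dist a x0 + dist x0 (h.symm f) :=
              hgd i a (hNA i (hs i hi) a ha) (h.symm f) (hNh i (hs i hi) f hf)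
            have e3 : dist x0 (h.symm f) = dist x0 f := by
              rw [← h.dist_eq x0 (h.symm f), hh, h.apply_symm_apply]
            have e4 : dist (g i a) (h.symm f) = dist (h (g i a)) f := by
              rw [← h.dist_eq (g i a) (h.symm f), h.apply_symm_apply]
            rw [dist_comm f (g i a), dist_comm f (h (g i a)), e1, ← e4, e2, e3]
          rintro (f | ⟨i, a⟩) (f' | ⟨i', a'⟩)
          · rfl
          · exact hmix f f.2 i' i'.2 a' a'.2
          · show dist (g i a) (f' : X) = dist (h (g i a)) (f' : X)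
            rw [dist_comm, dist_comm (h (g i a)) (f' : X)]
            exact hmix f' f'.2 i i.2 a a.2
          · show dist (g i a) (g i' a') = dist (h (g i a)) (h (g i' a'))
            rw [h.dist_eq])
      refine ⟨k, fun f hf => ?_, fun i hi a ha => ?_⟩
      · exact hk (Sum.inl ⟨f, hf⟩)
      · exact hk (Sum.inr (⟨i, hi⟩, ⟨a, ha⟩))
    obtain ⟨k, hkF, hkA⟩ := hex
    have hu : ∀ i ∈ s, ‖α k (α (g i) 0) - α h (α (g i) 0)‖ ≤ ε := by
      intro i hi
      have e1 := hA ((h * g i)⁻¹ * (k * g i)) (by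
        intro a ha
        have e2 : (k * g i) a = (h * g i) a := hkA i hi a ha
        show (h * g i)⁻¹ ((k * g i) a) = a
        rw [e2]
        exact IsometryEquiv.inv_apply_self _ _)
      have e3 : dist (α ((h * g i)⁻¹ * (k * g i)) 0) 0 =
          dist (α (k * g i) 0) (α (h * g i) 0) := by
        rw [← (α (h * g i)).dist_map (α ((h * g i)⁻¹ * (k * g i)) 0) 0, ← hmul, mul_inv_cancel_left]
      rw [e3, hmul, hmul, dist_eq_norm] at e1
      exact e1.le
    have hkz : ‖α k z - α h z‖ ≤ ε := by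
      rw [hzd, h5 E (α k) s l (fun i => α (g i) 0) hl1, h5 E (α h) s l (fun i => α (g i) 0) hl1,
        ← Finset.sum_sub_distrib]
      calc ‖∑ i ∈ s, (l i • α k (α (g i) 0) - l i • α h (α (g i) 0))‖ ≤
          ∑ i ∈ s, ‖l i • α k (α (g i) 0) - l i • α h (α (g i) 0)‖ := norm_sum_le _ _
        _ ≤ ∑ i ∈ s, l i * ε := by
          apply Finset.sum_le_sum
          intro i hi
          rw [← smul_sub, norm_smul, Real.norm_of_nonneg (hl i hi)]
          exact mul_le_mul_of_nonneg_left (hu i hi) (hl i hi)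
        _ = ε := by rw [← Finset.sum_mul, hl1, one_mul]
    have d1 : dist (α h w) (α h z) < ε := by
      rw [(α h).dist_map, dist_comm, dist_eq_norm]
      exact hz'
    have d2 : dist (α h z) (α k z) ≤ ε := by
      rw [dist_comm, dist_eq_norm]
      exact hkz
    have d3 : dist (α k z) (α k w) < ε := by
      rw [(α k).dist_map, dist_eq_norm]
      exact hz'
    have d4 : dist (α k w) w < ε := hF' k (fun x hx => hkF x hx)
    have t1 := dist_triangle (α h w) (α h z) w
    have t2 := dist_triangle (α h z) (α k z) w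
    have t3 := dist_triangle (α k z) (α k w) w
    linarith
  by_contra hne
  have hpos : 0 < dist (α h w) w := dist_pos.2 hne
  have := key (dist (α h w) w / 4) (by linarith)
  linarith

end Pool.Agent.Y938.QU
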