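import Pool.Agent.Y938.AQ.Stm

set_option autoImplicit false

/-! Project QU (frozen S01262): every continuous affine isometric action of the isometry group of the rational Urysohn
space on a reflexive Banach space has a fixed point. Definitions and statements of the steps. -/

namespace Pool.Agent.Y938.QU

open Filter Topology Pool.Agent.Y938.AQ

noncomputable section

/-- The rational Urysohn space in the form of the frozen statement (without countability). -/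
def Ury (X : Type) [MetricSpace X] : Prop :=
  (∀ x y : X, ∃ q : ℚ, dist x y = (q : ℝ)) ∧
  (∀ (A : Finset X) (f : X → ℚ), (∀ a ∈ A, 0 < f a) →
        (∀ a ∈ A, ∀ b ∈ A, |(f a : ℝ) - (f b : ℝ)| ≤ dist a b ∧ dist a b ≤ (f a : ℝ) + (f b : ℝ)) →
        ∃ x : X, ∀ a ∈ A, dist x a = (f a : ℝ))

/-- Continuity of a homomorphism into the affine isometries, in the form of the frozen statement. -/
def Cont {X E : Type} [MetricSpace X] [NormedAddCommGroup E] [NormedSpace ℝ E]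
    (α : (X ≃ᵢ X) →* (E ≃ᵃⁱ[ℝ] E)) : Prop :=
  ∀ (v : E) (g : X ≃ᵢ X) (ε : ℝ), 0 < ε →
            ∃ F : Finset X, ∀ h : X ≃ᵢ X, (∀ x ∈ F, h x = g x) →
              dist (α h v) (α g v) < ε

/-- Reflexivity. -/
def Refl (E : Type) [NormedAddCommGroup E] [NormedSpace ℝ E] : Prop :=
  Function.Surjective (NormedSpace.inclusionInDoubleDual ℝ E)

/-! ### A. The rational Urysohn space -/

/-- The space exists. -/
def S_exist : Prop := ∃ (X : Type) (_ : MetricSpace X), Countable X ∧ Ury X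

/-- Ultrahomogeneity. -/
def S_uhom : Prop :=
  ∀ (X : Type) [MetricSpace X], Countable X → Ury X → ∀ (ι : Type) [Finite ι] (x y : ι → X),
    (∀ i j, dist (x i) (x j) = dist (y i) (y j)) → ∃ g : X ≃ᵢ X, ∀ i, g (x i) = y i

/-- One point extensions with nonnegative values. -/
def S_one : Prop :=
  ∀ (X : Type) [MetricSpace X], Ury X → ∀ (A : Finset X) (f : X → ℚ), (∀ a ∈ A, 0 ≤ f a) →
        (∀ a ∈ A, ∀ b ∈ A, |(f a : ℝ) - (f b : ℝ)| ≤ dist a b ∧ dist a b ≤ (f a : ℝ) + (f b : ℝ)) →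
        ∃ x : X, ∀ a ∈ A, dist x a = (f a : ℝ)

/-- Universality for countable rational pseudometrics. -/
def S_univ : Prop :=
  ∀ (X : Type) [MetricSpace X], Ury X → ∀ (M : Type) [Countable M] (D : M → M → ℚ),
    (∀ a, D a a = 0) → (∀ a b, D a b = D b a) → (∀ a b c, D a c ≤ D a b + D b c) →
    ∃ x : M → X, ∀ a b, dist (x a) (x b) = (D a b : ℝ)

/-- Free amalgamation over a point. -/
def S_am : Prop :=
  ∀ (X : Type) [MetricSpace X], Countable X → Ury X → ∀ (x0 : X) (A B : Finset X),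
    ∃ k : X ≃ᵢ X, k x0 = x0 ∧ ∀ a ∈ A, ∀ b ∈ B, dist (k a) b = dist a x0 + dist x0 b

/-! ### B. Weak limits -/

/-- Mazur's lemma for the tails of a sequence. -/
def S_mazurT : Prop :=
  ∀ (E : Type) [NormedAddCommGroup E] [NormedSpace ℝ E] (u : ℕ → E) (w : E), WL u w →
    ∀ (N : ℕ) (ε : ℝ), 0 < ε → ∃ (s : Finset ℕ) (l : ℕ → ℝ), (∀ i ∈ s, N ≤ i) ∧ (∀ i ∈ s, 0 ≤ l i) ∧
      ∑ i ∈ s, l i = 1 ∧ ‖∑ i ∈ s, l i • u i - w‖ < ε

/-- Two increasing lists of the same length are interlaced: `n₁ < m₁ < n₂ < m₂ < ...`. -/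
def Inter : List ℕ → List ℕ → Prop
  | [], [] => True
  | a :: p, b :: q => a < b ∧ (∀ c ∈ p.head?, b < c) ∧ Inter p q
  | _, _ => False

/-- Kalton's lemma: a map on increasing `k`-tuples into a reflexive space that moves interlaced tuples by at most `C`
moves some pair `n₁ < ... < n_k < m₁ < ... < m_k` by at most `2 C + ε`. -/
def S_kalton : Prop :=
  ∀ (E : Type) [NormedAddCommGroup E] [NormedSpace ℝ E] [CompleteSpace E], Refl E →
    ∀ (k : ℕ) (f : List ℕ → E) (B C : ℝ), (∀ p, ‖f p‖ ≤ B) → 0 ≤ C →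
      (∀ p q : List ℕ, p.length = k → q.length = k → Inter p q → ‖f p - f q‖ ≤ C) →
      ∀ ε : ℝ, 0 < ε → ∃ p q : List ℕ, p.length = k ∧ q.length = k ∧ (p ++ q).Pairwise (· < ·) ∧
        ‖f p - f q‖ ≤ 2 * C + ε

/-! ### C. Affine isometric actions -/

/-- Orbits of point stabilisers are bounded. -/
def S_vbdd : Prop :=
  ∀ (X : Type) [MetricSpace X], Countable X → Ury X →
    ∀ (E : Type) [NormedAddCommGroup E] [NormedSpace ℝ E] (α : (X ≃ᵢ X) →* (E ≃ᵃⁱ[ℝ] E)), Cont α →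
    ∀ (x0 : X) (v : E), ∃ C : ℝ, ∀ g : X ≃ᵢ X, g x0 = x0 → ‖α g v - v‖ ≤ C

/-- Point stabilisers have fixed vectors. -/
def S_vfix : Prop :=
  ∀ (X : Type) [MetricSpace X], Countable X → Ury X →
    ∀ (E : Type) [NormedAddCommGroup E] [NormedSpace ℝ E] [CompleteSpace E], Refl E →
    ∀ α : (X ≃ᵢ X) →* (E ≃ᵃⁱ[ℝ] E), Cont α →
    ∀ x0 : X, ∃ w : E, ∀ g : X ≃ᵢ X, g x0 = x0 → α g w = w

/-- The orbit of a vector fixed by a point stabiliser is bounded. -/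
def S_gbdd : Prop :=
  ∀ (X : Type) [MetricSpace X], Countable X → Ury X →
    ∀ (E : Type) [NormedAddCommGroup E] [NormedSpace ℝ E] [CompleteSpace E], Refl E →
    ∀ α : (X ≃ᵢ X) →* (E ≃ᵃⁱ[ℝ] E), ∀ (x0 : X) (w : E), (∀ g : X ≃ᵢ X, g x0 = x0 → α g w = w) →
      ∃ C : ℝ, ∀ g : X ≃ᵢ X, ‖α g w - w‖ ≤ C

/-- The fixed point. -/
def S_gfix : Prop :=
  ∀ (X : Type) [MetricSpace X], Countable X → Ury X →
    ∀ (E : Type) [NormedAddCommGroup E] [NormedSpace ℝ E] [CompleteSpace E], Refl E →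
    ∀ α : (X ≃ᵢ X) →* (E ≃ᵃⁱ[ℝ] E), Cont α → ∃ e : E, ∀ g : X ≃ᵢ X, α g e = e

theorem asm_spec (h1 : S_exist) (h2 : S_gfix) :
    ¬ (∀ (X : Type) [MetricSpace X], Countable X →
      (∀ x y : X, ∃ q : ℚ, dist x y = (q : ℝ)) →
      (∀ (A : Finset X) (f : X → ℚ), (∀ a ∈ A, 0 < f a) →
        (∀ a ∈ A, ∀ b ∈ A, |(f a : ℝ) - (f b : ℝ)| ≤ dist a b ∧ dist a b ≤ (f a : ℝ) + (f b : ℝ)) →
        ∃ x : X, ∀ a ∈ A, dist x a = (f a : ℝ)) →
      ∃ (E : Type) (_ : NormedAddCommGroup E) (_ : NormedSpace ℝ E),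
        CompleteSpace E ∧
        Function.Surjective (NormedSpace.inclusionInDoubleDual ℝ E) ∧
        ∃ α : (X ≃ᵢ X) →* (E ≃ᵃⁱ[ℝ] E),
          (∀ (v : E) (g : X ≃ᵢ X) (ε : ℝ), 0 < ε →
            ∃ F : Finset X, ∀ h : X ≃ᵢ X, (∀ x ∈ F, h x = g x) →
              dist (α h v) (α g v) < ε) ∧
          (∀ v : E, ∃ g : X ≃ᵢ X, α g v ≠ v)) := by
  intro H
  obtain ⟨X, hX, hc, hU⟩ := h1
  obtain ⟨E, i1, i2, hE, hR, α, hα, hno⟩ := H X hc hU.1 hU.2
  obtain ⟨e, he⟩ := h2 X hc hU E hR α hα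
  obtain ⟨g, hg⟩ := hno e
  exact hg (he g)

end

end Pool.Agent.Y938.QU
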